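import Pool.Agent.Work.MP_dfab40_lc.R.C.NDa

/-!
# Module `NDw` (block C, size M: `ClW` is definable)

PROOF.  As in `NDk`.  All quantifiers are bounded: `y < n` (`Dp.ball`, with `fs q ≤ y →` inside),
`x` over the members of `nF j (z y)`, the two values of `j : Bool`, `G < pow2 n` (the premise says
that all members are `< n`, `lt_pow2_iff`), `e < nB j (z y)`.  Rules: `Dp.hom`, `Dp.col`, `Dp.Th`,
`Df.nF`, `Df.nB`, `Df.nD`, `Df.un`, `Dp.mem`, `Dp.eq`.  Split in two lemmas (first and second part of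
`ClW`), each with `Dp.congr` from the bounded form.
-/

namespace Pool.Agent.Work.MP_dfab40_lc.R.NL

open Pool.Agent.Work.MP_dfab40_lc.R

variable {M : Type} [PAm M] [ISig M] {S : Set (Set M)} {A : Type} [Cd M A]

private theorem clW1 [IS S] {c : M → M → Prop} (hc : Dp S (fun p : M × M => c p.1 p.2))
    {fq fn : A → M} {g : A → M → M} (hq : Df S fq) (hn : Df S fn)
    (hg : Df S (fun r : A × M => g r.1 r.2)) :
    Dp S (fun a => ∀ y, fs (fq a) ≤ y → y < fn a →
      Mem (g a y) (sn (fq a)) ∧ ∀ j x, Mem x (nF j (g a y)) → col c j x y) := by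
  have key : ∀ j : Bool, Dp S (fun p : A × M => ∀ x, Mem x (nF j (g p.1 p.2)) →
      col c j x p.2) := fun j =>
    Dp.allMem (P := fun (p : A × M) x => col c j x p.2) (Df.nF j hg)
      (Dp.col hc j (Df.snd Df.id) (Df.snd (Df.fst Df.id)))
  have h1 : Dp S (fun a => ∀ y, y < fn a → (fs (fq a) ≤ y →
      (Mem (g a y) (sn (fq a)) ∧ ((∀ x, Mem x (nF false (g a y)) → col c false x y) ∧
        ∀ x, Mem x (nF true (g a y)) → col c true x y)))) := by
    refine Dp.ball (P := fun a y => (fs (fq a) ≤ y →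
      (Mem (g a y) (sn (fq a)) ∧ ((∀ x, Mem x (nF false (g a y)) → col c false x y) ∧
        ∀ x, Mem x (nF true (g a y)) → col c true x y)))) hn ?_
    refine Dp.imp (Dp.le (Df.fs (Df.comp hq (Df.fst Df.id))) (Df.snd Df.id)) ?_
    exact Dp.and (Dp.mem hg (Df.sn (Df.comp hq (Df.fst Df.id)))) (Dp.and (key false) (key true))
  refine h1.congr fun a => ?_
  constructor
  · intro h y hy1 hy2
    obtain ⟨h3, h4, h5⟩ := h y hy2 hy1
    exact ⟨h3, fun j => by cases j; exacts [h4, h5]⟩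
  · intro h y hy1 hy2
    obtain ⟨h3, h4⟩ := h y hy2 hy1
    exact ⟨h3, h4 false, h4 true⟩

private theorem clW2 [IS S] (J : JP S) {c : M → M → Prop}
    (hc : Dp S (fun p : M × M => c p.1 p.2))
    {fq fn : A → M} {g : A → M → M} (hq : Df S fq) (hn : Df S fn)
    (hg : Df S (fun r : A × M => g r.1 r.2)) (j : Bool) :
    Dp S (fun a => ∀ y, fs (fq a) ≤ y → y < fn a → ∀ G : M,
      (∀ x, Mem x G → fs (fq a) ≤ x ∧ x < fn a ∧ g a x = g a y) → Hom c j G →
      ∀ e, e < nB j (g a y) → J.Th e (fn a) (un (nF j (g a y)) G) → Mem e (nD j (g a y))) := by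
  have h1 : Dp S (fun a => ∀ y, y < fn a → (fs (fq a) ≤ y → ∀ G, G < pow2 (fn a) →
      ((∀ x, Mem x G → (fs (fq a) ≤ x ∧ (x < fn a ∧ g a x = g a y))) → (Hom c j G →
      ∀ e, e < nB j (g a y) → (J.Th e (fn a) (un (nF j (g a y)) G) →
        Mem e (nD j (g a y))))))) := by
    refine Dp.ball (P := fun a y => (fs (fq a) ≤ y → ∀ G, G < pow2 (fn a) →
      ((∀ x, Mem x G → (fs (fq a) ≤ x ∧ (x < fn a ∧ g a x = g a y))) → (Hom c j G →
      ∀ e, e < nB j (g a y) → (J.Th e (fn a) (un (nF j (g a y)) G) →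
        Mem e (nD j (g a y))))))) hn ?_
    refine Dp.imp (Dp.le (Df.fs (Df.comp hq (Df.fst Df.id))) (Df.snd Df.id)) ?_
    refine Dp.ball (P := fun (p : A × M) G => ((∀ x, Mem x G →
      (fs (fq p.1) ≤ x ∧ (x < fn p.1 ∧ g p.1 x = g p.1 p.2))) → (Hom c j G →
      ∀ e, e < nB j (g p.1 p.2) → (J.Th e (fn p.1) (un (nF j (g p.1 p.2)) G) →
        Mem e (nD j (g p.1 p.2)))))) (Df.pow2 (Df.comp hn (Df.fst Df.id))) ?_
    refine Dp.imp ?_ (Dp.imp (Dp.hom hc j (Df.snd Df.id)) ?_)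
    · refine Dp.allMem (P := fun (p : (A × M) × M) x => (fs (fq p.1.1) ≤ x ∧
        (x < fn p.1.1 ∧ g p.1.1 x = g p.1.1 p.1.2))) (Df.snd Df.id) ?_
      refine Dp.and (Dp.le (Df.fs (Df.comp hq (Df.fst (Df.fst (Df.fst Df.id))))) (Df.snd Df.id))
        (Dp.and (Dp.lt (Df.snd Df.id) (Df.comp hn (Df.fst (Df.fst (Df.fst Df.id)))))
          (Dp.eq ?_ ?_))
      · exact Df.comp hg (g := fun p : ((A × M) × M) × M => (p.1.1.1, p.2))
          (Df.pair (Df.fst (Df.fst (Df.fst Df.id))) (Df.snd Df.id))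
      · exact Df.comp hg (g := fun p : ((A × M) × M) × M => p.1.1)
          (Df.fst (Df.fst Df.id))
    · have hg1 : Df S (fun p : (A × M) × M => g p.1.1 p.1.2) :=
        Df.comp hg (g := fun p : (A × M) × M => p.1) (Df.fst Df.id)
      refine Dp.ball (P := fun (p : (A × M) × M) e => (J.Th e (fn p.1.1)
        (un (nF j (g p.1.1 p.1.2)) p.2) → Mem e (nD j (g p.1.1 p.1.2)))) (Df.nB j hg1) ?_
      have hg2 : Df S (fun p : ((A × M) × M) × M => g p.1.1.1 p.1.1.2) :=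
        Df.comp hg (g := fun p : ((A × M) × M) × M => p.1.1) (Df.fst (Df.fst Df.id))
      exact Dp.imp (Dp.Th J (Df.snd Df.id) (Df.comp hn (Df.fst (Df.fst (Df.fst Df.id))))
        (Df.un (Df.nF j hg2) (Df.snd (Df.fst Df.id)))) (Dp.mem (Df.snd Df.id) (Df.nD j hg2))
  refine h1.congr fun a => ?_
  constructor
  · intro h y hy1 hy2 G hG
    exact h y hy2 hy1 G (lt_pow2_iff.2 fun x hx => (hG x hx).2.1) hG
  · intro h y hy1 hy2 G _ hG
    exact h y hy2 hy1 G hG

theorem dp_clW [IS S] (J : JP S) {c : M → M → Prop} (hc : Dp S (fun p : M × M => c p.1 p.2))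
    {fq fn : A → M} {g : A → M → M} (hq : Df S fq) (hn : Df S fn)
    (hg : Df S (fun r : A × M => g r.1 r.2)) :
    Dp S (fun a => ClW J c (fq a) (fn a) (g a)) := by
  refine ((clW1 hc hq hn hg).and ((clW2 J hc hq hn hg false).and
    (clW2 J hc hq hn hg true))).congr fun a => ?_
  constructor
  · rintro ⟨h1, h2, h3⟩
    exact ⟨h1, fun y hy1 hy2 j => by cases j; exacts [h2 y hy1 hy2, h3 y hy1 hy2]⟩
  · rintro ⟨h1, h2⟩
    exact ⟨h1, fun y hy1 hy2 => h2 y hy1 hy2 false, fun y hy1 hy2 => h2 y hy1 hy2 true⟩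

end Pool.Agent.Work.MP_dfab40_lc.R.NL
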