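import Pool.Agent.Work.MP_dfab40_lc.R.C.NDk
import Pool.Agent.Work.MP_dfab40_lc.R.C.NDw

/-!
# Module `NDp` (block C, size M: `ClP`, `Tree`, `Leaf` are definable)

PROOF.  `dp_clP`: conjunction of `dp_clW` (for `g' a y = fs (g a y)`, `Df.fs hg`), `Dp.ball` over
`y < n`, and `∀ x, Mem x t → Kill ... (fs x) (fs (sn x)) (sn (sn x))` (`Dp.allMem`, `dp_kill`), which is
equivalent to the third part: `InT t v w p` is `Mem (pr v (pr w p)) t`, and `x = pr (fs x) (pr (fs (sn x))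
(sn (sn x)))` (`pr_fs_sn`).
`dp_tree`: the second part is `∀ x, Mem x t → ∀ w', w' < pow2 (Qb b) → Agr (sn (sn x)) (fs (sn x)) w' →
InT t (fs x) w' (sn (sn x))`, the third part is `∀ x, Mem x t → ∀ r, r < Qb b → sn (sn x) < r →
InT t (fs x) (fs (sn x)) r`.  `dp_leaf`: the last part is a `Dp.ball` over `r < Qb b`.
-/

namespace Pool.Agent.Work.MP_dfab40_lc.R.NL

open Pool.Agent.Work.MP_dfab40_lc.R

variable {M : Type} [PAm M] [ISig M] {S : Set (Set M)} {A : Type} [Cd M A]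

private theorem inT_of_mem {t x : M} (h : Mem x t) : InT t (fs x) (fs (sn x)) (sn (sn x)) := by
  unfold InT
  rw [pr_fs_sn, pr_fs_sn]
  exact h

theorem dp_clP [IS S] (J : JP S) {c : M → M → Prop} (hc : Dp S (fun p : M × M => c p.1 p.2))
    {fq fb fn ft : A → M} {g : A → M → M} (hq : Df S fq) (hb : Df S fb) (hn : Df S fn)
    (ht : Df S ft) (hg : Df S (fun r : A × M => g r.1 r.2)) :
    Dp S (fun a => ClP J c (fq a) (fb a) (fn a) (ft a) (g a)) := by
  have h1 : Dp S (fun a => ClW J c (fq a) (fn a) (fun y => fs (g a y))) :=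
    dp_clW J hc hq hn (g := fun a y => fs (g a y)) (Df.fs hg)
  have h2 : Dp S (fun a => ∀ y, y < fn a → fs (fq a) ≤ y → sn (g a y) < pow2 (Qb (fb a))) :=
    Dp.ball (P := fun a y => fs (fq a) ≤ y → sn (g a y) < pow2 (Qb (fb a))) hn
      (Dp.imp (Dp.le (Df.fs (Df.comp hq (Df.fst Df.id))) (Df.snd Df.id))
        (Dp.lt (Df.sn hg) (Df.pow2 (df_Qb (Df.comp hb (Df.fst Df.id))))))
  have hg' : Df S (fun r : (A × M) × M => g r.1.1 r.2) :=
    Df.comp (f := fun r : A × M => g r.1 r.2) hg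
      (Df.pair (Df.fst (Df.fst Df.id)) (Df.snd Df.id))
  have h3 : Dp S (fun a => ∀ x, Mem x (ft a) →
      Kill J c (fq a) (fn a) (g a) (fs x) (fs (sn x)) (sn (sn x))) :=
    Dp.allMem (P := fun a x => Kill J c (fq a) (fn a) (g a) (fs x) (fs (sn x)) (sn (sn x))) ht
      (dp_kill J hc (A := A × M) (fq := fun r => fq r.1) (fn := fun r => fn r.1)
        (fv := fun r => fs r.2) (fw := fun r => fs (sn r.2)) (fp := fun r => sn (sn r.2))
        (g := fun r => g r.1)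
        (Df.comp hq (Df.fst Df.id)) (Df.comp hn (Df.fst Df.id)) hg'
        (Df.fs (Df.snd Df.id)) (Df.fs (Df.sn (Df.snd Df.id))) (Df.sn (Df.sn (Df.snd Df.id))))
  refine Dp.congr (Dp.and h1 (Dp.and h2 h3)) ?_
  intro a
  unfold ClP
  refine and_congr_right fun _ => and_congr ?_ ?_
  · exact ⟨fun h y h1 h2 => h y h2 h1, fun h y h1 h2 => h y h2 h1⟩
  · constructor
    · intro h v w p hT
      have := h _ hT
      rwa [fs_pr, sn_pr, fs_pr, sn_pr] at this
    · intro h x hx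
      exact h _ _ _ (inT_of_mem hx)

theorem dp_tree [IS S] {fq fb ft : A → M} (hq : Df S fq) (hb : Df S fb) (ht : Df S ft) :
    Dp S (fun a => Tree (fq a) (fb a) (ft a)) := by
  have h1 : Dp S (fun a => ∀ x, Mem x (ft a) → Mem (fs x) (sn (fq a)) ∧
      fs (sn x) < pow2 (Qb (fb a)) ∧ sn (sn x) < Qb (fb a)) :=
    Dp.allMem (P := fun a x => Mem (fs x) (sn (fq a)) ∧
      fs (sn x) < pow2 (Qb (fb a)) ∧ sn (sn x) < Qb (fb a)) ht
      (Dp.and (Dp.mem (Df.fs (Df.snd Df.id)) (Df.sn (Df.comp hq (Df.fst Df.id))))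
        (Dp.and (Dp.lt (Df.fs (Df.sn (Df.snd Df.id)))
          (Df.pow2 (df_Qb (Df.comp hb (Df.fst Df.id)))))
        (Dp.lt (Df.sn (Df.sn (Df.snd Df.id))) (df_Qb (Df.comp hb (Df.fst Df.id))))))
  have h2 : Dp S (fun a => ∀ x, Mem x (ft a) → ∀ w', w' < pow2 (Qb (fb a)) →
      Agr (sn (sn x)) (fs (sn x)) w' → InT (ft a) (fs x) w' (sn (sn x))) :=
    Dp.allMem (P := fun a x => ∀ w', w' < pow2 (Qb (fb a)) →
      Agr (sn (sn x)) (fs (sn x)) w' → InT (ft a) (fs x) w' (sn (sn x))) ht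
      (Dp.ball (A := A × M) (f := fun r => pow2 (Qb (fb r.1)))
        (P := fun r w' => Agr (sn (sn r.2)) (fs (sn r.2)) w' →
          InT (ft r.1) (fs r.2) w' (sn (sn r.2)))
        (Df.pow2 (df_Qb (Df.comp hb (Df.fst Df.id))))
        (Dp.imp (dp_agr (Df.sn (Df.sn (Df.snd (Df.fst Df.id))))
            (Df.fs (Df.sn (Df.snd (Df.fst Df.id)))) (Df.snd Df.id))
          (dp_inT (Df.comp ht (Df.fst (Df.fst Df.id))) (Df.fs (Df.snd (Df.fst Df.id)))
            (Df.snd Df.id) (Df.sn (Df.sn (Df.snd (Df.fst Df.id)))))))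
  have h3 : Dp S (fun a => ∀ x, Mem x (ft a) → ∀ r, r < Qb (fb a) →
      sn (sn x) < r → InT (ft a) (fs x) (fs (sn x)) r) :=
    Dp.allMem (P := fun a x => ∀ r, r < Qb (fb a) →
      sn (sn x) < r → InT (ft a) (fs x) (fs (sn x)) r) ht
      (Dp.ball (A := A × M) (f := fun r => Qb (fb r.1))
        (P := fun x r => sn (sn x.2) < r → InT (ft x.1) (fs x.2) (fs (sn x.2)) r)
        (df_Qb (Df.comp hb (Df.fst Df.id)))
        (Dp.imp (Dp.lt (Df.sn (Df.sn (Df.snd (Df.fst Df.id)))) (Df.snd Df.id))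
          (dp_inT (Df.comp ht (Df.fst (Df.fst Df.id))) (Df.fs (Df.snd (Df.fst Df.id)))
            (Df.fs (Df.sn (Df.snd (Df.fst Df.id)))) (Df.snd Df.id))))
  refine Dp.congr (Dp.and h1 (Dp.and h2 h3)) ?_
  intro a
  unfold Tree
  refine and_congr_right fun _ => and_congr ?_ ?_
  · constructor
    · intro h v w w' p hT hw hA
      have := h _ hT w' hw
      rw [fs_pr, sn_pr, fs_pr, sn_pr] at this
      exact this hA
    · intro h x hx w' hw hA
      exact h _ _ _ _ (inT_of_mem hx) hw hA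
  · constructor
    · intro h v w p r hT hp hr
      have := h _ hT r hr
      rw [fs_pr, sn_pr, fs_pr, sn_pr] at this
      exact this hp
    · intro h x hx r hr hp
      exact h _ _ _ _ (inT_of_mem hx) hp hr

theorem dp_leaf [IS S] {fq fb ft fv fu fp : A → M} (hq : Df S fq) (hb : Df S fb) (ht : Df S ft)
    (hv : Df S fv) (hu : Df S fu) (hp : Df S fp) :
    Dp S (fun a => Leaf (fq a) (fb a) (ft a) (fv a) (fu a) (fp a)) := by
  have h5 : Dp S (fun a => ∀ r, r < Qb (fb a) → fp a < r → InT (ft a) (fv a) (fu a) r) :=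
    Dp.ball (P := fun a r => fp a < r → InT (ft a) (fv a) (fu a) r) (df_Qb hb)
      (Dp.imp (Dp.lt (Df.comp hp (Df.fst Df.id)) (Df.snd Df.id))
        (dp_inT (Df.comp ht (Df.fst Df.id)) (Df.comp hv (Df.fst Df.id))
          (Df.comp hu (Df.fst Df.id)) (Df.snd Df.id)))
  refine Dp.congr (Dp.and (Dp.mem hv (Df.sn hq)) (Dp.and (Dp.lt hu (Df.pow2 (df_Qb hb)))
    (Dp.and (Dp.lt hp (df_Qb hb)) (Dp.and (Dp.not (dp_inT ht hv hu hp)) h5)))) ?_
  intro a
  unfold Leaf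
  refine and_congr_right fun _ => and_congr_right fun _ => and_congr_right fun _ =>
    and_congr_right fun _ => ?_
  exact ⟨fun h r h1 h2 => h r h2 h1, fun h r h1 h2 => h r h2 h1⟩

end Pool.Agent.Work.MP_dfab40_lc.R.NL
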