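import Pool.Agent.Work.MP_dfab40_lc.R.C.NNorm
import Pool.Agent.Work.MP_dfab40_lc.R.C.NDp

/-!
# Module `NBig` (block C, size M: one stage for all leaves)

PROOF.  `coll_S1` for `R x n := Leaf q b t (fs x) (fs (sn x)) (sn (sn x)) → ∀ Z, Z < bd q b n →
ClP J c q b n t (ap Z) → ¬ Kill J c q n (ap Z) (fs x) (fs (sn x)) (sn (sn x))` (it is `Dp`: `Dp.imp`,
`dp_leaf`, `Dp.ball`, `df_bd`, `dp_clP`, `dp_kill` with `g a y = ap (Z a) y`), below
`pr (sn q) (pr (pow2 (Qb b)) (Qb b))`; the hypothesis `h` gives the premise (for `x` which is not a leaf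
take `n = 0`).  Let `C` be the bound and `s := C + q + 1`.  Let `(v, u, p)` be a leaf and suppose
`ClP J c q b s t (ap Z)` and `Kill J c q s (ap Z) v u p`.  `x := pr v (pr u p)` is below the bound
(`mem_lt`, `pr_lt_pr_left`, `pr_lt_pr_right`), so there is `n < C ≤ s` with `R x n`.  By `clP_anti`,
`kill_anti` both hold at `n`; by `clP_canon` (`df_ap`) there is `Z' < bd q b n` with the same values on
`[fs q, n)` and `ClP` at `n`, and `Kill` at `n` by `kill_congr`: contradiction.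
-/

namespace Pool.Agent.Work.MP_dfab40_lc.R.NL

open Pool.Agent.Work.MP_dfab40_lc.R

variable {M : Type} [PAm M] [ISig M] {S : Set (Set M)}

theorem exists_stage [IS S] (J : JP S) {c : M → M → Prop}
    (hc : Dp S (fun p : M × M => c p.1 p.2)) {q b t : M}
    (h : ∀ v u p, Leaf q b t v u p →
      ∃ n, ∀ Z, ClP J c q b n t (ap Z) → ¬ Kill J c q n (ap Z) v u p) :
    ∃ s, q < s ∧ ∀ v u p, Leaf q b t v u p →
      ∀ Z, ClP J c q b s t (ap Z) → ¬ Kill J c q s (ap Z) v u p := by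
  have h1 : Dp S (fun r : (M × M) × M => ClP J c q b r.1.2 t (ap r.2)) :=
    dp_clP J hc (g := fun r : (M × M) × M => ap r.2) (Df.const q) (Df.const b)
      (Df.snd (Df.fst Df.id)) (Df.const t) (Df.ap (Df.snd (Df.fst Df.id)) (Df.snd Df.id))
  have h2 : Dp S (fun r : (M × M) × M => Kill J c q r.1.2 (ap r.2) (fs r.1.1) (fs (sn r.1.1))
      (sn (sn r.1.1))) :=
    dp_kill J hc (g := fun r : (M × M) × M => ap r.2) (Df.const q)
      (Df.snd (Df.fst Df.id)) (Df.ap (Df.snd (Df.fst Df.id)) (Df.snd Df.id))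
      (Df.fs (Df.fst (Df.fst Df.id))) (Df.fs (Df.sn (Df.fst (Df.fst Df.id))))
      (Df.sn (Df.sn (Df.fst (Df.fst Df.id))))
  have hR : Dp S (fun r : M × M => Leaf q b t (fs r.1) (fs (sn r.1)) (sn (sn r.1)) →
      ∀ Z, Z < bd q b r.2 → ClP J c q b r.2 t (ap Z) →
        ¬ Kill J c q r.2 (ap Z) (fs r.1) (fs (sn r.1)) (sn (sn r.1))) := by
    refine Dp.imp (dp_leaf (Df.const q) (Df.const b) (Df.const t) (Df.fs (Df.fst Df.id))
      (Df.fs (Df.sn (Df.fst Df.id))) (Df.sn (Df.sn (Df.fst Df.id)))) ?_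
    exact Dp.ball (P := fun (r : M × M) Z => ClP J c q b r.2 t (ap Z) →
        ¬ Kill J c q r.2 (ap Z) (fs r.1) (fs (sn r.1)) (sn (sn r.1)))
      (df_bd (Df.const q) (Df.const b) (Df.snd Df.id)) (Dp.imp h1 (Dp.not h2))
  obtain ⟨C, hC⟩ := coll_S1 (R := fun x n => Leaf q b t (fs x) (fs (sn x)) (sn (sn x)) →
      ∀ Z, Z < bd q b n → ClP J c q b n t (ap Z) →
        ¬ Kill J c q n (ap Z) (fs x) (fs (sn x)) (sn (sn x))) hR.1
    (pr (sn q) (pr (pow2 (Qb b)) (Qb b))) (fun x _ => by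
      by_cases hL : Leaf q b t (fs x) (fs (sn x)) (sn (sn x))
      · obtain ⟨n, hn⟩ := h _ _ _ hL
        exact ⟨n, fun _ Z _ => hn Z⟩
      · exact ⟨0, fun hL' => absurd hL' hL⟩)
  refine ⟨C + q + 1, lt_succ_iff.2 le_add_self, fun v u p hL Z hZ hK => ?_⟩
  have hb : pr v (pr u p) < pr (sn q) (pr (pow2 (Qb b)) (Qb b)) :=
    (pr_lt_pr_left _ (mem_lt hL.1)).trans (pr_lt_pr_right _ ((pr_lt_pr_left _ hL.2.1).trans
      (pr_lt_pr_right _ hL.2.2.1)))
  obtain ⟨n, hnC, hn⟩ := hC _ hb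
  simp only [fs_pr, sn_pr] at hn
  have hns : n ≤ C + q + 1 := hnC.le.trans (le_add_right le_self_add)
  have hZ1 := clP_anti J hZ hns
  have hK1 := kill_anti J hK hns
  obtain ⟨Z', hZ'1, hZ'2, hZ'3⟩ := clP_canon J (df_ap Z) hZ1
  exact hn hL Z' hZ'1 hZ'3 (kill_congr J hK1 hZ'2)

end Pool.Agent.Work.MP_dfab40_lc.R.NL
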