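import Pool.Agent.Work.MP_dfab40_lc.R.C.NSide

/-!
# Module `NClW` (block C, size M-L: the new assignment is correct)

PROOF.  `fs (pr s N) = s`, `sn (pr s N) = N`.  The first part of `ClW` is `hz'`.  Second part: let
`s ≤ y < n`, `G'` a `j`-homogeneous finite set with `s ≤ x < n` and `z' x = z' y` for `x ∈ G'`,
`e < nB j (z' y)`, `Th e n (un (nF j (z' y)) G')`.  By `hN`, `z' y = mkN b i v u p G` with `Legit` data.
Since `nI (z' x) = z x` (`hz'`) and `nI (mkN ..) = pr v u`, all `x ∈ G'` and `y` have `z x = pr v u`, so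
`fs (z x) = v`, `sn (z x) = u`.
Case `j ≠ i`: `nF`, `nB`, `nD` of `z' y` are those of `v`, and the second part of `ClW` in `hz.1` (at `y`,
`fs q ≤ s ≤ y`, `fs (z x) = fs (z y)`) gives the claim.
Case `j = i`: `nF i (z' y) = un (nF i v) G`, `nB i = b`, `nD i = Sd i p`.  Let `G₂ := un G G'`, so
`un (un (nF i v) G) G' = un (nF i v) G₂` (`mem_ext`).  `G₂` is nonempty.  It is in the cell
`(v, u, p)` of `z` below `n`: `x ∈ G`: `InCell q s (ap ρ) v u p x`, `z x = ap ρ x` (`hρ`), `x < s ≤ n`;
`x ∈ G'`: `Agr p u u`.  `Hom c i G₂`: both in `G`; both in `G'`; `x ∈ G`, `y' ∈ G'`: `z' y' = z' y`, so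
the last part of `hz'` for `y'` gives `col c i x y'` (`x ∈ nF i (z' y')`); `x ∈ G'`, `y' ∈ G`, `x < y'`:
impossible (`y' < s ≤ x`).  All `e' ∈ Sd i p`: `Th e' s (un (nF i v) G)` by `Legit`, so
`Th e' n (un (nF i v) G₂)` by `J.mono` (the sets agree below `s`, as members of `G'` are `≥ s`).  So
`neg` (with `n`, `z`, `hz`, `G₂`) gives `Mem e (Sd i p)`.
-/

namespace Pool.Agent.Work.MP_dfab40_lc.R.NL

open Pool.Agent.Work.MP_dfab40_lc.R

variable {M : Type} [PAm M] [ISig M] {S : Set (Set M)}

theorem new_clW [IS S] (J : JP S) {c : M → M → Prop} {q b t s ρ : M}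
    (hS : Setup J c q b t s ρ) {n : M} (hn : s ≤ n) {z : M → M} (hz : ClP J c q b n t z)
    (hρ : ∀ y, fs q ≤ y → y < s → z y = ap ρ y) {N : M}
    (hN : ∀ v', Mem v' N ↔ New J c q b t s ρ v') {z' : M → M}
    (hz' : ∀ y, s ≤ y → y < n →
      Mem (z' y) N ∧ nI (z' y) = z y ∧ ∀ j x, Mem x (nF j (z' y)) → col c j x y) :
    ClW J c (pr s N) n z' := by
  refine ⟨?_, ?_⟩
  · intro y hy hyn
    rw [fs_pr] at hy
    rw [sn_pr]
    exact ⟨(hz' y hy hyn).1, (hz' y hy hyn).2.2⟩
  · intro y hy hyn j G' hG' hH e he hTh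
    simp only [fs_pr] at hy hG'
    obtain ⟨i, v, u, p, G, hLegit, hzy⟩ := (hN _).1 (hz' y hy hyn).1
    obtain ⟨hL, hGne, hGc, hGH, hGTh⟩ := hLegit
    have hqs : fs q ≤ s := hS.le
    have hI : z y = pr v u := by
      rw [← (hz' y hy hyn).2.1, hzy]
      simp [mkN]
    have hI' : ∀ x, Mem x G' → s ≤ x ∧ x < n ∧ z x = pr v u ∧ z' x = z' y := by
      intro x hx
      obtain ⟨h1, h2, h3⟩ := hG' x hx
      refine ⟨h1, h2, ?_, h3⟩
      rw [← (hz' x h1 h2).2.1, h3, hzy]
      simp [mkN]
    by_cases hji : j = i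
    · subst hji
      have hF : nF j (z' y) = un (nF j v) G := by
        rw [hzy]
        simp [mkN]
      have hBB : nB j (z' y) = b := by
        rw [hzy]
        simp [mkN]
      have hD : nD j (z' y) = Sd j p := by
        rw [hzy]
        simp [mkN]
      have hun : un (un (nF j v) G) G' = un (nF j v) (un G G') :=
        mem_ext fun x => by simp only [mem_un, or_assoc]
      rw [hF, hun] at hTh
      rw [hBB] at he
      rw [hD]
      obtain ⟨x0, hx0⟩ := hGne
      refine neg J hS hL hz ⟨x0, mem_un.2 (Or.inl hx0)⟩ ?_ ?_ ?_ he hTh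
      · intro x hx
        rcases mem_un.1 hx with h1 | h1
        · obtain ⟨h2, h3, h4, h5⟩ := hGc x h1
          refine ⟨h2, lt_of_lt_of_le h3 hn, ?_, ?_⟩
          · rw [hρ x h2 h3]
            exact h4
          · rw [hρ x h2 h3]
            exact h5
        · obtain ⟨h2, h3, h4, h5⟩ := hI' x h1
          refine ⟨le_trans hqs h2, h3, ?_, ?_⟩
          · rw [h4, fs_pr]
          · rw [h4, sn_pr]
            exact fun r _ => Iff.rfl
      · intro x hx y' hy' hxy
        rcases mem_un.1 hx with h1 | h1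
        · rcases mem_un.1 hy' with h2 | h2
          · exact hGH x h1 y' h2 hxy
          · obtain ⟨h3, h4, h5, h6⟩ := hI' y' h2
            exact (hz' y' h3 h4).2.2 j x (by rw [h6, hF]; exact mem_un.2 (Or.inr h1))
        · rcases mem_un.1 hy' with h2 | h2
          · exact absurd (lt_of_lt_of_le (lt_trans hxy (hGc y' h2).2.1) (hI' x h1).1)
              (lt_irrefl _)
          · exact hH x h1 y' h2 hxy
      · intro e' he'
        refine J.mono e' s n _ _ hn (fun x hxs => ?_) (hGTh e' he')
        simp only [mem_un]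
        constructor
        · rintro (h | h)
          · exact Or.inl h
          · exact Or.inr (Or.inl h)
        · rintro (h | h | h)
          · exact Or.inl h
          · exact Or.inr h
          · exact absurd (lt_of_lt_of_le hxs (hI' x h).1) (lt_irrefl _)
    · have hF : nF j (z' y) = nF j v := by
        rw [hzy]
        simp [mkN, hji]
      have hBB : nB j (z' y) = nB j v := by
        rw [hzy]
        simp [mkN, hji]
      have hD : nD j (z' y) = nD j v := by
        rw [hzy]
        simp [mkN, hji]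
      have hfz : fs (z y) = v := by rw [hI, fs_pr]
      rw [hF] at hTh
      rw [hBB] at he
      rw [hD]
      have h1 := hz.1.2 y (le_trans hqs hy) hyn j G'
      simp only [hfz] at h1
      refine h1 (fun x hx => ?_) hH e he hTh
      obtain ⟨h2, h3, h4, h5⟩ := hI' x hx
      exact ⟨le_trans hqs h2, h3, by rw [h4, fs_pr]⟩

end Pool.Agent.Work.MP_dfab40_lc.R.NL
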