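import Pool.Agent.Work.MP_dfab40_lc.R.C.NDef

/-!
# Module `NDa` (block C, size S-M: definability of the basic notions)

PROOF.  Closure rules of `ApiA`, `ApiB` (see `D/DefA.lean` for the style).
`dp_agr`: `Agr p u w ↔ ∀ r, r < u + w → p < r → (Mem r u ↔ Mem r w)`, because a member of `u` is `< u`
(`mem_lt`) and `u ≤ u + w`; `Dp.ball`, `Dp.imp`, `Dp.iff`, `Dp.mem`, `Dp.congr`.
`dp_inCell`: `InCell` is a conjunction of four rules; `fun a => g a (fx a)` is
`Df.comp hg (Df.pair Df.id hx)`.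
-/

namespace Pool.Agent.Work.MP_dfab40_lc.R.NL

open Pool.Agent.Work.MP_dfab40_lc.R

variable {M : Type} [PAm M] [ISig M] {S : Set (Set M)} {A : Type} [Cd M A]

theorem df_Sd (i : Bool) {f : A → M} (hf : Df S f) : Df S (fun a => Sd i (f a)) := by
  cases i
  · exact Df.fs hf
  · exact Df.sn hf

theorem df_Qb {f : A → M} (hf : Df S f) : Df S (fun a => Qb (f a)) :=
  Df.mul (Df.pow2 hf) (Df.pow2 hf)

theorem df_bd {f g h : A → M} (hf : Df S f) (hg : Df S g) (hh : Df S h) :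
    Df S (fun a => bd (f a) (g a) (h a)) := by
  have h1 : Df S (fun a => h a + (pr (sn (f a)) (pow2 (Qb (g a))) + 1)) :=
    Df.add hh (Df.add (Df.pr (Df.sn hf) (Df.pow2 (df_Qb hg))) (Df.const 1))
  exact Df.pow2 (Df.mul h1 h1)

theorem dp_ne [IS S] {f : A → M} (hf : Df S f) : Dp S (fun a => ∃ x, Mem x (f a)) :=
  Dp.congr (Dp.exMem (P := fun _ _ => True) hf (Dp.const True)) fun a =>
    ⟨fun ⟨x, hx, _⟩ => ⟨x, hx⟩, fun ⟨x, hx⟩ => ⟨x, hx, trivial⟩⟩

theorem dp_agr [IS S] {f g h : A → M} (hf : Df S f) (hg : Df S g) (hh : Df S h) :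
    Dp S (fun a => Agr (f a) (g a) (h a)) := by
  have h1 : Dp S (fun p : A × M => f p.1 < p.2 → (Mem p.2 (g p.1) ↔ Mem p.2 (h p.1))) :=
    Dp.imp (Dp.lt (Df.comp hf (Df.fst Df.id)) (Df.snd Df.id))
      (Dp.iff (Dp.mem (Df.snd Df.id) (Df.comp hg (Df.fst Df.id)))
        (Dp.mem (Df.snd Df.id) (Df.comp hh (Df.fst Df.id))))
  refine Dp.congr (Dp.ball (f := fun a => g a + h a)
    (P := fun a r => f a < r → (Mem r (g a) ↔ Mem r (h a))) (Df.add hg hh) h1) fun a => ?_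
  constructor
  · intro H r hr
    by_cases hm : r < g a + h a
    · exact H r hm hr
    · have h1 : ¬ Mem r (g a) := fun hx => hm (lt_of_lt_of_le (mem_lt hx) le_self_add)
      have h2 : ¬ Mem r (h a) := fun hx => hm (lt_of_lt_of_le (mem_lt hx) le_add_self)
      exact iff_of_false h1 h2
  · intro H r _ hr
    exact H r hr

theorem dp_inT {f g h k : A → M} (hf : Df S f) (hg : Df S g) (hh : Df S h) (hk : Df S k) :
    Dp S (fun a => InT (f a) (g a) (h a) (k a)) :=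
  Dp.mem (Df.pr hg (Df.pr hh hk)) hf

theorem dp_inCell [IS S] {fq fn fv fw fp fx : A → M} {g : A → M → M} (hq : Df S fq)
    (hn : Df S fn) (hg : Df S (fun r : A × M => g r.1 r.2)) (hv : Df S fv) (hw : Df S fw)
    (hp : Df S fp) (hx : Df S fx) :
    Dp S (fun a => InCell (fq a) (fn a) (g a) (fv a) (fw a) (fp a) (fx a)) := by
  have hz : Df S (fun a => g a (fx a)) :=
    Df.comp (f := fun r : A × M => g r.1 r.2) hg (Df.pair Df.id hx)
  exact Dp.and (Dp.le (Df.fs hq) hx) (Dp.and (Dp.lt hx hn)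
    (Dp.and (Dp.eq (Df.fs hz) hv) (dp_agr hp (Df.sn hz) hw)))

end Pool.Agent.Work.MP_dfab40_lc.R.NL
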