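import Pool.Agent.Work.MP_dfab40_lc.R.D.DefA

/-!
# Block C (the Next Lemma): definitions

`q` is a state, `fs q` its stage, `sn q` its set of nodes.  A QUESTION is a pair `p = pr S₀ S₁` of
finite subsets of `[0, b)`; the questions are exactly the numbers `p < Qb b`.  A label `u < 2^(Qb b)`
is a set of questions: `p ∈ u` says that the side 1 (`true`) was chosen at the question `p`.
An assignment `z` gives to each number `y`, `fs q ≤ y < n`, the pair `z y = pr v u` of a node and a
label.  The cell `(v, w, p)` consists of the `y` with node `v` whose label agrees with `w` above `p`;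
it is divided in two sides by `p`.  The question `p` is KILLED in the cell if on the side `i` no
nonempty `i`-homogeneous finite set makes all facts of `S_i` true.  `t` is a tree of killed questions.
-/

namespace Pool.Agent.Work.MP_dfab40_lc.R.NL

open Pool.Agent.Work.MP_dfab40_lc.R

variable {M : Type} [PAm M] [ISig M]

/-- The number of questions. -/
noncomputable def Qb (b : M) : M := pow2 b * pow2 b

/-- The finite sets `S_0` and `S_1` of a question. -/
noncomputable def Sd (i : Bool) (p : M) : M :=
  match i with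
  | false => fs p
  | true => sn p

/-- The question `p` with `e` added to `S_i`. -/
noncomputable def up (i : Bool) (e p : M) : M :=
  match i with
  | false => pr (ins e (fs p)) (sn p)
  | true => pr (fs p) (ins e (sn p))

/-- The labels `u` and `w` agree above `p`. -/
def Agr (p u w : M) : Prop := ∀ r, p < r → (Mem r u ↔ Mem r w)

/-- `(v, w, p)` is in the finite set `t` of triples. -/
def InT (t v w p : M) : Prop := Mem (pr v (pr w p)) t

/-- `x` is in the cell `(v, w, p)` of the assignment `z` below `n`. -/
def InCell (q n : M) (z : M → M) (v w p x : M) : Prop :=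
  fs q ≤ x ∧ x < n ∧ fs (z x) = v ∧ Agr p (sn (z x)) w

variable {S : Set (Set M)}

/-- The question `p` is killed in the cell `(v, w, p)`. -/
def Kill (J : JP S) (c : M → M → Prop) (q n : M) (z : M → M) (v w p : M) : Prop :=
  ∀ (i : Bool) (G : M), (∃ x, Mem x G) →
    (∀ x, Mem x G → InCell q n z v w p x ∧ (Mem p (sn (z x)) ↔ i = true)) →
    Hom c i G → ∃ e, Mem e (Sd i p) ∧ ¬ J.Th e n (un (nF i v) G)

/-- Weak form of `Cl` (the second part only for the nodes in use), for functions. -/
def ClW (J : JP S) (c : M → M → Prop) (q n : M) (z : M → M) : Prop :=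
  (∀ y, fs q ≤ y → y < n → Mem (z y) (sn q) ∧ ∀ j x, Mem x (nF j (z y)) → col c j x y) ∧
  ∀ y, fs q ≤ y → y < n → ∀ (j : Bool) (G : M),
    (∀ x, Mem x G → fs q ≤ x ∧ x < n ∧ z x = z y) → Hom c j G →
      ∀ e, e < nB j (z y) → J.Th e n (un (nF j (z y)) G) → Mem e (nD j (z y))

/-- The labelled assignment `z` is correct for the tree `t`. -/
def ClP (J : JP S) (c : M → M → Prop) (q b n t : M) (z : M → M) : Prop :=
  ClW J c q n (fun y => fs (z y)) ∧
  (∀ y, fs q ≤ y → y < n → sn (z y) < pow2 (Qb b)) ∧
  ∀ v w p, InT t v w p → Kill J c q n z v w p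

/-- `t` is a tree of triples: invariant under the agreement above `p`, closed under larger `p`. -/
def Tree (q b t : M) : Prop :=
  (∀ x, Mem x t → Mem (fs x) (sn q) ∧ fs (sn x) < pow2 (Qb b) ∧ sn (sn x) < Qb b) ∧
  (∀ v w w' p, InT t v w p → w' < pow2 (Qb b) → Agr p w w' → InT t v w' p) ∧
  ∀ v w p r, InT t v w p → p < r → r < Qb b → InT t v w r

/-- The tree `t` is realizable. -/
def Rlz (J : JP S) (c : M → M → Prop) (q b t : M) : Prop :=
  ∀ n, ∃ Z, ClP J c q b n t (ap Z)

/-- `(v, u, p)` is a leaf of the tree `t`. -/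
def Leaf (q b t v u p : M) : Prop :=
  Mem v (sn q) ∧ u < pow2 (Qb b) ∧ p < Qb b ∧ ¬ InT t v u p ∧
    ∀ r, p < r → r < Qb b → InT t v u r

/-- Bound for the codes of labelled assignments on `[0, n)`. -/
noncomputable def bd (q b n : M) : M :=
  pow2 ((n + (pr (sn q) (pow2 (Qb b)) + 1)) * (n + (pr (sn q) (pow2 (Qb b)) + 1)))

/-- Everything that is fixed in the second half of the proof: the state `q` is correct, the tree `t`
is maximal up to the stage `s`, `ρ` is an assignment below `s` with extensions of every length. -/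
structure Setup (J : JP S) (c : M → M → Prop) (q b t s ρ : M) : Prop where
  node : ∀ v, Mem v (sn q) → NodeOK J c (fs q) v
  nB_le : ∀ v, Mem v (sn q) → ∀ j, nB j v ≤ b
  tree : Tree q b t
  le : fs q ≤ s
  noLeaf : ∀ v u p, Leaf q b t v u p → ∀ Z, ClP J c q b s t (ap Z) → ¬ Kill J c q s (ap Z) v u p
  cl : ClP J c q b s t (ap ρ)
  ext : ∀ n, s ≤ n → ∃ Z, ClP J c q b n t (ap Z) ∧ ∀ y, fs q ≤ y → y < s → ap Z y = ap ρ y

/-- The new node made from the leaf `(v, u, p)` with the finite set `G` on the side `i`. -/
noncomputable def mkN (b : M) (i : Bool) (v u p G : M) : M :=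
  node (fun j => if j = i then un (nF j v) G else nF j v) (fun j => if j = i then b else nB j v)
    (fun j => if j = i then Sd i p else nD j v) (pr v u)

/-- The data of a new node are correct. -/
def Legit (J : JP S) (c : M → M → Prop) (q b t s ρ : M) (i : Bool) (v u p G : M) : Prop :=
  Leaf q b t v u p ∧ (∃ x, Mem x G) ∧ (∀ x, Mem x G → InCell q s (ap ρ) v u p x) ∧
    Hom c i G ∧ ∀ e, Mem e (Sd i p) → J.Th e s (un (nF i v) G)

/-- `v'` is a new node. -/
def New (J : JP S) (c : M → M → Prop) (q b t s ρ v' : M) : Prop :=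
  ∃ (i : Bool) (v u p G : M), Legit J c q b t s ρ i v u p G ∧ v' = mkN b i v u p G

end Pool.Agent.Work.MP_dfab40_lc.R.NL
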