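import Pool.Agent.Work.MP_dfab40_lc.R.C.NRes
import Pool.Agent.Work.MP_dfab40_lc.R.C.NDp

/-!
# Module `NDie` (block C, size M: a leaf of a maximal tree cannot be killed for ever)

PROOF.  Suppose not: for every `n` there is `Z` with `ClP J c q b n t (ap Z)` and
`Kill J c q n (ap Z) v u p`.  By `compr` (with `dp_agr`, ...) let `t'` be the set of the `x < B` with
`Mem x t ∨ (fs x = v ∧ sn (sn x) = p ∧ fs (sn x) < pow2 (Qb b) ∧ Agr p u (fs (sn x)))`,
`B := t + pr v (pr (pow2 (Qb b)) (Qb b))` (all these `x` are `< B`: members of `t` are `< t`, the others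
are `pr v (pr w p)` with `w < pow2 (Qb b)`, `p < Qb b`).  So
`InT t' v' w p' ↔ InT t v' w p' ∨ (v' = v ∧ p' = p ∧ w < pow2 (Qb b) ∧ Agr p u w)`.
`Tree q b t'`: first part by `hL`; second part: `Agr p u w` and `Agr p w w'` give `Agr p u w'`; third
part: for a new triple `(v, w, p)` and `p < r < Qb b` we have `InT t v u r` (`hL`), and `Agr r u w`
(from `Agr p u w`), so `InT t v w r` by the second part of `hT`.
`Rlz J c q b t'`: the same `Z`, `kill_agr` for the new triples.  So `t' ≤ t` by `hmax`.  But `t ≤ t'`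
(`le_of_subset`), so `t' = t`, and `InT t' v u p` (with `Agr p u u`), `¬ InT t v u p`: contradiction.
-/

namespace Pool.Agent.Work.MP_dfab40_lc.R.NL

open Pool.Agent.Work.MP_dfab40_lc.R

variable {M : Type} [PAm M] [ISig M] {S : Set (Set M)}

theorem leaf_dies [IS S] (J : JP S) {c : M → M → Prop} {q b t : M} (hT : Tree q b t)
    (hmax : ∀ t', Tree q b t' → Rlz J c q b t' → t' ≤ t) {v u p : M} (hL : Leaf q b t v u p) :
    ∃ n, ∀ Z, ClP J c q b n t (ap Z) → ¬ Kill J c q n (ap Z) v u p := by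
  by_contra hcon
  push Not at hcon
  have hP : Dp S (fun x : M => Mem x t ∨ (fs x = v ∧ sn (sn x) = p ∧
      fs (sn x) < pow2 (Qb b) ∧ Agr p u (fs (sn x)))) :=
    Dp.or (Dp.mem Df.id (Df.const t)) (Dp.and (Dp.eq (Df.fs Df.id) (Df.const v))
      (Dp.and (Dp.eq (Df.sn (Df.sn Df.id)) (Df.const p))
        (Dp.and (Dp.lt (Df.fs (Df.sn Df.id)) (Df.const (pow2 (Qb b))))
          (dp_agr (Df.const p) (Df.const u) (Df.fs (Df.sn Df.id))))))
  obtain ⟨t', ht'⟩ := compr hP (t + pr v (pr (pow2 (Qb b)) (Qb b)))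
  obtain ⟨hL1, hL2, hL3, hL4, hL5⟩ := hL
  have hIn : ∀ v' w p', InT t' v' w p' ↔ InT t v' w p' ∨
      (v' = v ∧ p' = p ∧ w < pow2 (Qb b) ∧ Agr p u w) := by
    intro v' w p'
    unfold InT
    rw [ht']
    simp only [fs_pr, sn_pr]
    constructor
    · rintro ⟨-, h⟩
      exact h
    · intro h
      refine ⟨?_, h⟩
      rcases h with h | ⟨rfl, rfl, h1, h2⟩
      · exact (mem_lt h).trans_le le_self_add
      · exact ((pr_lt_pr_right _ ((pr_lt_pr_left _ h1).trans (pr_lt_pr_right _ hL3)))).trans_le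
          le_add_self
  have hTree : Tree q b t' := by
    refine ⟨fun x hx => ?_, fun v' w w' p' h hw' ha => ?_, fun v' w p' r h hr hr' => ?_⟩
    · rcases ((ht' x).1 hx).2 with h | ⟨h1, h2, h3, -⟩
      · exact hT.1 x h
      · rw [h1, h2]
        exact ⟨hL1, h3, hL3⟩
    · rw [hIn] at h ⊢
      rcases h with h | ⟨rfl, rfl, h1, h2⟩
      · exact Or.inl (hT.2.1 _ _ _ _ h hw' ha)
      · exact Or.inr ⟨rfl, rfl, hw', fun r hr => (h2 r hr).trans (ha r hr)⟩
    · rw [hIn] at h ⊢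
      rcases h with h | ⟨rfl, rfl, h1, h2⟩
      · exact Or.inl (hT.2.2 _ _ _ _ h hr hr')
      · exact Or.inl (hT.2.1 _ _ _ _ (hL5 r hr hr') h1 (fun r' hr'' => h2 r' (hr.trans hr'')))
  have hR : Rlz J c q b t' := by
    intro n
    obtain ⟨Z, hZ, hK⟩ := hcon n
    refine ⟨Z, hZ.1, hZ.2.1, fun v' w p' h => ?_⟩
    rcases (hIn v' w p').1 h with h | ⟨rfl, rfl, h1, h2⟩
    · exact hZ.2.2 _ _ _ h
    · exact kill_agr J hK h2
  have h1 : t ≤ t' := le_of_subset fun x hx =>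
    (ht' x).2 ⟨(mem_lt hx).trans_le le_self_add, Or.inl hx⟩
  have h2 : t' = t := le_antisymm (hmax t' hTree hR) h1
  have h3 : InT t' v u p := (hIn v u p).2 (Or.inr ⟨rfl, rfl, hL2, fun r _ => Iff.rfl⟩)
  rw [h2] at h3
  exact hL4 h3

end Pool.Agent.Work.MP_dfab40_lc.R.NL
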