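import Pool.Agent.Work.MP_dfab40_lc.R.C.NDa

/-!
# Module `NDk` (block C, size M: `Kill` is definable)

PROOF.  `Kill` is a quantifier over `i : Bool` (a conjunction of two, `Bool.forall_bool`), and the
quantifier over `G` may be bounded by `pow2 n`: the second premise says that all members of `G` are
`< n` (`InCell`), so `G < pow2 n` by `lt_pow2_iff`.  So `Kill` is equivalent to
`∀ i, ∀ G, G < pow2 n → (...)`, with the matrix `Dp`: `dp_ne`, `Dp.allMem` (with `dp_inCell`,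
`Dp.iff`, `Dp.mem`, `Dp.const`), `Dp.hom`, `Dp.exMem` (with `df_Sd`, `Dp.Th`, `Df.un`, `Df.nF`).
Prove it first for one `i` over the context `A × M` (the last coordinate is `G`), lift the functions
by `Df.comp _ (Df.fst Df.id)` and `g` by
`Df.comp hg (Df.pair (Df.fst (Df.fst Df.id)) (Df.snd Df.id))`, then `Dp.ball`, `Dp.congr`.
-/

namespace Pool.Agent.Work.MP_dfab40_lc.R.NL

open Pool.Agent.Work.MP_dfab40_lc.R

variable {M : Type} [PAm M] [ISig M] {S : Set (Set M)} {A : Type} [Cd M A]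

theorem dp_kill [IS S] (J : JP S) {c : M → M → Prop} (hc : Dp S (fun p : M × M => c p.1 p.2))
    {fq fn fv fw fp : A → M} {g : A → M → M} (hq : Df S fq) (hn : Df S fn)
    (hg : Df S (fun r : A × M => g r.1 r.2)) (hv : Df S fv) (hw : Df S fw) (hp : Df S fp) :
    Dp S (fun a => Kill J c (fq a) (fn a) (g a) (fv a) (fw a) (fp a)) := by
  have key : ∀ i : Bool, Dp S (fun a => ∀ G, G < pow2 (fn a) → ((∃ x, Mem x G) →
      (∀ x, Mem x G → InCell (fq a) (fn a) (g a) (fv a) (fw a) (fp a) x ∧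
        (Mem (fp a) (sn (g a x)) ↔ i = true)) →
      Hom c i G → ∃ e, Mem e (Sd i (fp a)) ∧ ¬ J.Th e (fn a) (un (nF i (fv a)) G))) := by
    intro i
    refine Dp.ball (P := fun a G => ((∃ x, Mem x G) →
      (∀ x, Mem x G → InCell (fq a) (fn a) (g a) (fv a) (fw a) (fp a) x ∧
        (Mem (fp a) (sn (g a x)) ↔ i = true)) →
      Hom c i G → ∃ e, Mem e (Sd i (fp a)) ∧ ¬ J.Th e (fn a) (un (nF i (fv a)) G)))
      (Df.pow2 hn) ?_
    have hq2 : Df S (fun r : (A × M) × M => fq r.1.1) := Df.comp hq (Df.fst (Df.fst Df.id))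
    have hn2 : Df S (fun r : (A × M) × M => fn r.1.1) := Df.comp hn (Df.fst (Df.fst Df.id))
    have hv2 : Df S (fun r : (A × M) × M => fv r.1.1) := Df.comp hv (Df.fst (Df.fst Df.id))
    have hw2 : Df S (fun r : (A × M) × M => fw r.1.1) := Df.comp hw (Df.fst (Df.fst Df.id))
    have hp2 : Df S (fun r : (A × M) × M => fp r.1.1) := Df.comp hp (Df.fst (Df.fst Df.id))
    have hp1 : Df S (fun r : A × M => fp r.1) := Df.comp hp (Df.fst Df.id)
    have hg2 : Df S (fun r : (A × M) × M => g r.1.1 r.2) :=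
      Df.comp (f := fun r : A × M => g r.1 r.2) hg
        (Df.pair (Df.fst (Df.fst Df.id)) (Df.snd Df.id))
    have hg3 : Df S (fun r : ((A × M) × M) × M => g r.1.1.1 r.2) :=
      Df.comp (f := fun r : A × M => g r.1 r.2) hg
        (Df.pair (Df.fst (Df.fst (Df.fst Df.id))) (Df.snd Df.id))
    refine Dp.imp (dp_ne (Df.snd Df.id)) (Dp.imp ?_ (Dp.imp (Dp.hom hc i (Df.snd Df.id)) ?_))
    · refine Dp.allMem (f := fun r : A × M => r.2)
        (P := fun r x => InCell (fq r.1) (fn r.1) (g r.1) (fv r.1) (fw r.1) (fp r.1) x ∧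
          (Mem (fp r.1) (sn (g r.1 x)) ↔ i = true)) (Df.snd Df.id) ?_
      refine Dp.and ?_ (Dp.iff (Dp.mem hp2 (Df.sn hg2)) (Dp.const _))
      exact dp_inCell (g := fun r : (A × M) × M => g r.1.1) hq2 hn2 hg3 hv2 hw2 hp2
        (Df.snd Df.id)
    · refine Dp.exMem (f := fun r : A × M => Sd i (fp r.1))
        (P := fun r e => ¬ J.Th e (fn r.1) (un (nF i (fv r.1)) r.2)) (df_Sd i hp1) ?_
      exact Dp.not (Dp.Th J (Df.snd Df.id) hn2 (Df.un (Df.nF i hv2) (Df.snd (Df.fst Df.id))))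
  refine Dp.congr (Dp.and (key false) (key true)) ?_
  intro a
  unfold Kill
  rw [Bool.forall_bool]
  have h1 : ∀ i : Bool, (∀ G, G < pow2 (fn a) → ((∃ x, Mem x G) →
      (∀ x, Mem x G → InCell (fq a) (fn a) (g a) (fv a) (fw a) (fp a) x ∧
        (Mem (fp a) (sn (g a x)) ↔ i = true)) →
      Hom c i G → ∃ e, Mem e (Sd i (fp a)) ∧ ¬ J.Th e (fn a) (un (nF i (fv a)) G))) ↔
      (∀ G, ((∃ x, Mem x G) →
      (∀ x, Mem x G → InCell (fq a) (fn a) (g a) (fv a) (fw a) (fp a) x ∧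
        (Mem (fp a) (sn (g a x)) ↔ i = true)) →
      Hom c i G → ∃ e, Mem e (Sd i (fp a)) ∧ ¬ J.Th e (fn a) (un (nF i (fv a)) G))) := by
    intro i
    constructor
    · intro h G h2 h3 h4
      exact h G (lt_pow2_iff.2 fun x hx => (h3 x hx).1.2.1) h2 h3 h4
    · intro h G _
      exact h G
  exact and_congr (h1 false) (h1 true)

end Pool.Agent.Work.MP_dfab40_lc.R.NL
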