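import Pool.Agent.Work.MP_dfab40_lc.R.C.NSide

/-!
# Module `NEx` (block C, size M: every number gets a new node)

PROOF of `exists_leaf`.  Let `v := fs (z y)`, `u := sn (z y)`; `Mem v (sn q)` and `u < pow2 (Qb b)` by `hz`.
`InT t v u 0` is false: otherwise `Kill J c q n z v u 0`; take `i := decide (Mem 0 u)` (classical) and
`G := pow2 y` or `ins y 0` (`Mem x G ↔ x = y`): it is homogeneous, `y` is in the cell, so some
`e ∈ Sd i 0`, against `not_mem_Sd_zero`.  `0 < Qb b` (`pow2_pos`).  `greatest_S1` (with `dp_inT`) for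
`P p := p < Qb b ∧ ¬ InT t v u p` gives `p` with `P p` and `¬ P r` for `p < r`: a leaf.
PROOF of `new_exists`.  Let `v := fs (z y)`, `u := sn (z y)`, `p` from `exists_leaf` (`fs q ≤ s ≤ y`).
`split` with `P x := c x y` (`Dp.comp` of `hc`) gives `i, G`.  `v' := mkN b i v u p G`.  It is new
(`Legit`), `nI v' = pr v u = z y` (`nI_node`, `pr_fs_sn`).  Colours: for `x ∈ nF j v` use the first part
of `ClW` in `hz` at `y`; for `j = i` and `x ∈ G`: `c x y ↔ i = true`, which is `col c i x y`.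
-/

namespace Pool.Agent.Work.MP_dfab40_lc.R.NL

open Pool.Agent.Work.MP_dfab40_lc.R

variable {M : Type} [PAm M] [ISig M] {S : Set (Set M)}

theorem exists_leaf [IS S] (J : JP S) {c : M → M → Prop} {q b t n : M} {z : M → M}
    (hz : ClP J c q b n t z) {y : M} (hy : fs q ≤ y) (hyn : y < n) :
    ∃ p, Leaf q b t (fs (z y)) (sn (z y)) p := by
  have hv : Mem (fs (z y)) (sn q) := (hz.1.1 y hy hyn).1
  have hu : sn (z y) < pow2 (Qb b) := hz.2.1 y hy hyn
  have h0 : ¬ InT t (fs (z y)) (sn (z y)) 0 := by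
    intro h
    classical
    obtain ⟨e, he, _⟩ := hz.2.2 _ _ _ h (decide (Mem 0 (sn (z y)))) (ins y 0)
      ⟨y, mem_ins.2 (Or.inl rfl)⟩ (by
        intro x hx
        have hxy : x = y := (mem_ins.1 hx).resolve_right (not_mem_zero x)
        subst hxy
        exact ⟨⟨hy, hyn, rfl, fun r _ => Iff.rfl⟩, by simp⟩) (by
        intro x hx x' hx' hlt
        have h1 : x = y := (mem_ins.1 hx).resolve_right (not_mem_zero x)
        have h2 : x' = y := (mem_ins.1 hx').resolve_right (not_mem_zero x')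
        rw [h1, h2] at hlt
        exact absurd hlt (lt_irrefl _))
    exact not_mem_Sd_zero _ e he
  have hQ : 0 < Qb b := mul_pos (pow2_pos b) (pow2_pos b)
  obtain ⟨p, hp, hmax⟩ := greatest_S1 (S := S)
    (P := fun p => p < Qb b ∧ ¬ InT t (fs (z y)) (sn (z y)) p)
    ((Dp.lt Df.id (Df.const _)).and
      (dp_inT (Df.const t) (Df.const _) (Df.const _) Df.id).not).1 (Qb b) (fun x hx => hx.1)
    ⟨0, hQ, h0⟩
  exact ⟨p, hv, hu, hp.1, hp.2, fun r hr hrb => by_contra fun h => hmax r hr ⟨hrb, h⟩⟩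

theorem new_exists [IS S] (J : JP S) {c : M → M → Prop}
    (hc : Dp S (fun p : M × M => c p.1 p.2)) {q b t s ρ : M} (hS : Setup J c q b t s ρ) {n : M}
    {z : M → M} (hz : ClP J c q b n t z) {y : M} (hy : s ≤ y) (hyn : y < n) :
    ∃ v', New J c q b t s ρ v' ∧ nI v' = z y ∧ ∀ j x, Mem x (nF j v') → col c j x y := by
  obtain ⟨p, hL⟩ := exists_leaf J hz (hS.le.trans hy) hyn
  obtain ⟨i, G, hne, hG, hH, hTh⟩ := split J hS hL (P := fun x => c x y)
    (Dp.comp (P := fun p : M × M => c p.1 p.2) hc (Df.pair Df.id (Df.const y)))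
  refine ⟨mkN b i (fs (z y)) (sn (z y)) p G,
    ⟨i, _, _, p, G, ⟨hL, hne, fun x hx => (hG x hx).1, hH, hTh⟩, rfl⟩, ?_, ?_⟩
  · rw [mkN, nI_node, pr_fs_sn]
  · intro j x hx
    rw [mkN, nF_node] at hx
    have hcol := (hz.1.1 y (hS.le.trans hy) hyn).2
    by_cases hji : j = i
    · rw [if_pos hji, mem_un] at hx
      rcases hx with hx | hx
      · exact hcol j x hx
      · rw [hji]
        exact (hG x hx).2
    · rw [if_neg hji] at hx
      exact hcol j x hx

end Pool.Agent.Work.MP_dfab40_lc.R.NL
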