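import Pool.Agent.Work.MP_dfab40_lc.R.C.NSide

/-!
# Module `NOK` (block C, size M-L: the new nodes are correct and extend old nodes)

PROOF.  Let `v' = mkN b i v u p G` with `Legit` data; `nF_node`, `nB_node`, `nD_node` compute the
components: for `j = i`: `un (nF i v) G`, `b`, `Sd i p`; for `j ≠ i`: those of `v`.  `hS.node v` is
`NodeOK J c (fs q) v`, `fs q ≤ s` is `hS.le`; members of `G` are in `[fs q, s)`, with
`fs (ap ρ x) = v`.
`NodeOK J c s v'`.  `j ≠ i`: from `NodeOK J c (fs q) v` and `fs q ≤ s` (`J.mono` with the same set).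
`j = i`: members of `un (nF i v) G` are `< s`.  `Hom c i (un (nF i v) G)`: for `x < y`: both in `nF i v`:
NodeOK; both in `G`: `Hom c i G`; `x ∈ nF i v`, `y ∈ G`: the first part of `ClW` for `ρ` at `y`
(`hS.cl.1.1 y`) as `fs (ap ρ y) = v`; `x ∈ G`, `y ∈ nF i v`: `y < fs q ≤ x`, impossible.
`e ∈ Sd i p`: `e < b` by `mem_Sd_lt` (`p < Qb b`), and `Th e s (un (nF i v) G)` by `Legit`.
`Ext (fs q) v v'`.  `j ≠ i` trivial.  `j = i`: below `fs q` nothing changes (members of `G` are
`≥ fs q`); `nB i v ≤ b` by `hS.nB_le`; let `e < nB i v`.  If `e ∈ Sd i p`, then `Th e s (un (nF i v) G)`,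
and the second part of `ClW` of `ρ` (at some `y ∈ G`, `G` nonempty; `fs (ap ρ x) = v = fs (ap ρ y)` for
`x ∈ G`) gives `e ∈ nD i v`.  If `e ∈ nD i v`, then `Th e (fs q) (nF i v)` by `NodeOK`, so
`Th e s (un (nF i v) G)` by `J.mono` (`fs q ≤ s`, the sets agree below `fs q`), and `neg` with `n := s`,
`z := ap ρ`, `hS.cl` gives `e ∈ Sd i p` (`e < nB i v ≤ b`).
Last part: `j := i`.
-/

namespace Pool.Agent.Work.MP_dfab40_lc.R.NL

open Pool.Agent.Work.MP_dfab40_lc.R

variable {M : Type} [PAm M] [ISig M] {S : Set (Set M)}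

theorem new_ok [IS S] (J : JP S) {c : M → M → Prop} {q b t s ρ : M}
    (hS : Setup J c q b t s ρ) {v' : M} (h : New J c q b t s ρ v') :
    NodeOK J c s v' ∧ (∃ v, Mem v (sn q) ∧ Ext (fs q) v v') ∧ ∃ j : Bool, b ≤ nB j v' := by
  obtain ⟨i, v, u, p, G, ⟨hL, hne, hcell, hHom, hSd⟩, rfl⟩ := h
  have hv := hL.1
  have hp := hL.2.2.1
  have hOK := hS.node v hv
  obtain ⟨c1, c2⟩ := hS.cl.1
  have eF : ∀ j, nF j (mkN b i v u p G) = if j = i then un (nF j v) G else nF j v :=
    fun j => nF_node _ _ _ _ j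
  have eB : ∀ j, nB j (mkN b i v u p G) = if j = i then b else nB j v :=
    fun j => nB_node _ _ _ _ j
  have eD : ∀ j, nD j (mkN b i v u p G) = if j = i then Sd i p else nD j v :=
    fun j => nD_node _ _ _ _ j
  have hG1 : ∀ x, Mem x G → fs q ≤ x := fun x hx => (hcell x hx).1
  have hG2 : ∀ x, Mem x G → x < s := fun x hx => (hcell x hx).2.1
  have hG3 : ∀ x, Mem x G → fs (ap ρ x) = v := fun x hx => (hcell x hx).2.2.1
  refine ⟨?_, ⟨v, hv, ?_⟩, ⟨i, ?_⟩⟩
  · intro j
    obtain ⟨k1, k2, k3⟩ := hOK j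
    rw [eF, eB, eD]
    by_cases hj : j = i
    · subst hj
      rw [if_pos rfl, if_pos rfl, if_pos rfl]
      refine ⟨?_, ?_, ?_⟩
      · intro x hx
        rw [mem_un] at hx
        rcases hx with hx | hx
        · exact lt_of_lt_of_le (k1 x hx) hS.le
        · exact hG2 x hx
      · intro x hx y hy hxy
        rw [mem_un] at hx hy
        rcases hx with hx | hx
        · rcases hy with hy | hy
          · exact k2 x hx y hy hxy
          · have h1 := (c1 y (hG1 y hy) (hG2 y hy)).2 j x
            simp only [hG3 y hy] at h1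
            exact h1 hx
        · rcases hy with hy | hy
          · exact absurd (lt_of_lt_of_le (hxy.trans (k1 y hy)) (hG1 x hx)) (lt_irrefl _)
          · exact hHom x hx y hy hxy
      · intro e he
        exact ⟨mem_Sd_lt hp he, hSd e he⟩
    · rw [if_neg hj, if_neg hj, if_neg hj]
      refine ⟨?_, k2, ?_⟩
      · intro x hx
        exact lt_of_lt_of_le (k1 x hx) hS.le
      · intro e he
        exact ⟨(k3 e he).1, J.mono e _ _ _ _ hS.le (fun x _ => Iff.rfl) (k3 e he).2⟩
  · intro j
    obtain ⟨k1, k2, k3⟩ := hOK j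
    rw [eF, eB, eD]
    by_cases hj : j = i
    · subst hj
      rw [if_pos rfl, if_pos rfl, if_pos rfl]
      have hnB := hS.nB_le v hv j
      refine ⟨?_, hnB, ?_⟩
      · intro x hx
        rw [mem_un]
        constructor
        · rintro (h | h)
          · exact h
          · exact absurd (hG1 x h) (not_le.2 hx)
        · intro h
          exact Or.inl h
      · intro e he
        constructor
        · intro h
          obtain ⟨y, hy⟩ := hne
          have h1 := c2 y (hG1 y hy) (hG2 y hy) j G
          simp only [hG3 y hy] at h1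
          exact h1 (fun x hx => ⟨hG1 x hx, hG2 x hx, hG3 x hx⟩) hHom e he (hSd e h)
        · intro h
          have h1 : J.Th e s (un (nF j v) G) := by
            refine J.mono e (fs q) s (nF j v) (un (nF j v) G) hS.le ?_ (k3 e h).2
            intro x hx
            rw [mem_un]
            constructor
            · intro h2
              exact Or.inl h2
            · rintro (h2 | h2)
              · exact h2
              · exact absurd (hG1 x h2) (not_le.2 hx)
          exact neg J hS hL hS.cl hne hcell hHom hSd (lt_of_lt_of_le he hnB) h1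
    · rw [if_neg hj, if_neg hj, if_neg hj]
      exact ⟨fun x _ => Iff.rfl, le_rfl, fun e _ => Iff.rfl⟩
  · rw [eB, if_pos rfl]

end Pool.Agent.Work.MP_dfab40_lc.R.NL
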