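import Pool.Agent.Work.MP_dfab40_lc.R.C.NNorm
import Pool.Agent.Work.MP_dfab40_lc.R.C.NDp

/-!
# Module `NRho` (block C, size M: an assignment with extensions of every length)

PROOF.  Suppose not: for every `ρ` there is `n ≥ s` such that no `Z` is good.  `coll_S1` for
`R ρ n := s ≤ n ∧ ∀ Z, Z < bd q b n → ClP J c q b n t (ap Z) → ¬ ∀ y, y < s → fs q ≤ y → ap Z y = ap ρ y`
(it is `Dp`), for `ρ < bd q b s`.  Let `C` be the bound, `m := C + s`, and take `Z` with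
`ClP J c q b m t (ap Z)` from `h`.  By `clP_anti` (to `s`) and `clP_canon` there is `ρ < bd q b s` with
`ap ρ y = ap Z y` for `fs q ≤ y < s`.  Take `n < C` with `R ρ n`.  By `clP_anti` (to `n ≤ m`) and
`clP_canon` there is `Z' < bd q b n` with `ClP J c q b n t (ap Z')`, and `ap Z' y = ap Z y` for
`fs q ≤ y < n`, so `ap Z' y = ap ρ y` for `fs q ≤ y < s` (`s ≤ n`): contradiction.
-/

namespace Pool.Agent.Work.MP_dfab40_lc.R.NL

open Pool.Agent.Work.MP_dfab40_lc.R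

variable {M : Type} [PAm M] [ISig M] {S : Set (Set M)}

theorem exists_rho [IS S] (J : JP S) {c : M → M → Prop}
    (hc : Dp S (fun p : M × M => c p.1 p.2)) {q b t : M} (h : Rlz J c q b t) (s : M) :
    ∃ ρ, ∀ n, s ≤ n → ∃ Z, ClP J c q b n t (ap Z) ∧ ∀ y, fs q ≤ y → y < s → ap Z y = ap ρ y := by
  by_contra hcon
  push Not at hcon
  have hR : Dp S (fun p : M × M => s ≤ p.2 ∧ ∀ Z, Z < bd q b p.2 →
      (ClP J c q b p.2 t (ap Z) → ¬ ∀ y, y < s → (fs q ≤ y → ap Z y = ap p.1 y))) := by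
    refine Dp.and (Dp.le (Df.const s) (Df.snd Df.id)) ?_
    refine Dp.ball (f := fun p : M × M => bd q b p.2) (P := fun (p : M × M) (Z : M) =>
      (ClP J c q b p.2 t (ap Z) → ¬ ∀ y, y < s → (fs q ≤ y → ap Z y = ap p.1 y)))
      (df_bd (Df.const q) (Df.const b) (Df.snd Df.id)) ?_
    refine Dp.imp ?_ (Dp.not ?_)
    · exact dp_clP J hc (g := fun (a : (M × M) × M) (y : M) => ap a.2 y) (Df.const q) (Df.const b)
        (Df.snd (Df.fst Df.id)) (Df.const t) (Df.ap (Df.snd (Df.fst Df.id)) (Df.snd Df.id))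
    · refine Dp.ball (f := fun _ : (M × M) × M => s) (P := fun (p : (M × M) × M) (y : M) =>
        (fs q ≤ y → ap p.2 y = ap p.1.1 y)) (Df.const s) ?_
      refine Dp.imp (Dp.le (Df.const _) (Df.snd Df.id)) ?_
      exact Dp.eq (Df.ap (Df.snd (Df.fst Df.id)) (Df.snd Df.id))
        (Df.ap (Df.fst (Df.fst (Df.fst Df.id))) (Df.snd Df.id))
  obtain ⟨C, hC⟩ := coll_S1 (S := S) (R := fun ρ n => s ≤ n ∧ ∀ Z, Z < bd q b n →
      (ClP J c q b n t (ap Z) → ¬ ∀ y, y < s → (fs q ≤ y → ap Z y = ap ρ y))) hR.1 (bd q b s) (by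
    intro ρ _
    obtain ⟨n, hn, hnZ⟩ := hcon ρ
    refine ⟨n, hn, fun Z _ hZ hall => ?_⟩
    obtain ⟨y, h1, h2, h3⟩ := hnZ Z hZ
    exact h3 (hall y h2 h1))
  obtain ⟨Z, hZ⟩ := h (C + s)
  have hs : s ≤ C + s := le_add_self
  obtain ⟨ρ, hρ1, hρ2, -⟩ := clP_canon J (df_ap Z) (clP_anti J hZ hs)
  obtain ⟨n, hn1, hn2, hn3⟩ := hC ρ hρ1
  have hn : n ≤ C + s := hn1.le.trans le_self_add
  obtain ⟨Z', hZ1, hZ2, hZ3⟩ := clP_canon J (df_ap Z) (clP_anti J hZ hn)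
  apply hn3 Z' hZ1 hZ3
  intro y hy hqy
  rw [hZ2 y hqy (lt_of_lt_of_le hy hn2), hρ2 y hqy hy]

end Pool.Agent.Work.MP_dfab40_lc.R.NL
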