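import Pool.Agent.Work.MP_dfab40_lc.R.C.NDp

/-!
# Module `NSet` (block C, size M: the set of the new nodes)

PROOF.  For each `i : Bool` let `a_i` (by `compr`) be the set of the `x < B` with
`Legit J c q b t s ρ i (fs x) (fs (sn x)) (fs (sn (sn x))) (sn (sn (sn x)))`, where
`B := pr (sn q) (pr (pow2 (Qb b)) (pr (Qb b) (pow2 s)))`; `Legit` implies `v < sn q` (`mem_lt`),
`u < pow2 (Qb b)`, `p < Qb b` (`Leaf`) and `G < pow2 s` (`lt_pow2_iff`: members of `G` are `< s` by
`InCell`), so all legitimate tuples are below `B` (`pr_lt_pr_left`, `pr_lt_pr_right`).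
`Legit` is `Dp`: `dp_leaf`, `dp_ne`, `Dp.allMem` with `dp_inCell` (`g a y = ap ρ y`), `Dp.hom`,
`Dp.allMem` with `Dp.Th`.  By `exists_image` for the `Df` function
`x ↦ mkN b i (fs x) (fs (sn x)) (fs (sn (sn x))) (sn (sn (sn x)))` (for fixed `i` the `if j = i` are
decided, `node` is a composition of `pr`) there is `b_i` with
`Mem y b_i ↔ ∃ x, Mem x a_i ∧ mkN .. = y`.  `N := un b_false b_true`.
-/

namespace Pool.Agent.Work.MP_dfab40_lc.R.NL

open Pool.Agent.Work.MP_dfab40_lc.R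

variable {M : Type} [PAm M] [ISig M] {S : Set (Set M)}

private theorem nset_dp [IS S] (J : JP S) {c : M → M → Prop}
    (hc : Dp S (fun p : M × M => c p.1 p.2)) (q b t s ρ : M) (i : Bool) :
    Dp S (fun x => Legit J c q b t s ρ i (fs x) (fs (sn x)) (fs (sn (sn x)))
      (sn (sn (sn x)))) := by
  unfold Legit
  refine Dp.and (dp_leaf (Df.const q) (Df.const b) (Df.const t) (Df.fs Df.id)
    (Df.fs (Df.sn Df.id)) (Df.fs (Df.sn (Df.sn Df.id)))) (Dp.and (dp_ne (Df.sn (Df.sn (Df.sn Df.id))))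
    (Dp.and ?_ (Dp.and (Dp.hom hc i (Df.sn (Df.sn (Df.sn Df.id)))) ?_)))
  · exact Dp.allMem (f := fun x : M => sn (sn (sn x)))
      (P := fun x y => InCell q s (ap ρ) (fs x) (fs (sn x)) (fs (sn (sn x))) y)
      (Df.sn (Df.sn (Df.sn Df.id)))
      (dp_inCell (g := fun _ : M × M => ap ρ) (Df.const q) (Df.const s)
        (Df.ap (Df.const ρ) (Df.snd Df.id)) (Df.fs (Df.fst Df.id)) (Df.fs (Df.sn (Df.fst Df.id)))
        (Df.fs (Df.sn (Df.sn (Df.fst Df.id)))) (Df.snd Df.id))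
  · exact Dp.allMem (f := fun x : M => Sd i (fs (sn (sn x))))
      (P := fun x e => J.Th e s (un (nF i (fs x)) (sn (sn (sn x)))))
      (df_Sd i (Df.fs (Df.sn (Df.sn Df.id))))
      (Dp.Th J (Df.snd Df.id) (Df.const s) (Df.un (Df.nF i (Df.fs (Df.fst Df.id)))
        (Df.sn (Df.sn (Df.sn (Df.fst Df.id))))))

private theorem nset_df (b : M) (i : Bool) :
    Df S (fun x => mkN b i (fs x) (fs (sn x)) (fs (sn (sn x))) (sn (sn (sn x)))) := by
  have h1 : ∀ j : Bool, Df S (fun x : M => if j = i then un (nF j (fs x)) (sn (sn (sn x)))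
      else nF j (fs x)) := by
    intro j
    by_cases h : j = i
    · simp only [h, if_true]
      exact Df.un (Df.nF i (Df.fs Df.id)) (Df.sn (Df.sn (Df.sn Df.id)))
    · simp only [h, if_false]
      exact Df.nF j (Df.fs Df.id)
  have h2 : ∀ j : Bool, Df S (fun x : M => if j = i then b else nB j (fs x)) := by
    intro j
    by_cases h : j = i
    · simp only [h, if_true]
      exact Df.const b
    · simp only [h, if_false]
      exact Df.nB j (Df.fs Df.id)
  have h3 : ∀ j : Bool, Df S (fun x : M => if j = i then Sd i (fs (sn (sn x)))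
      else nD j (fs x)) := by
    intro j
    by_cases h : j = i
    · simp only [h, if_true]
      exact df_Sd i (Df.fs (Df.sn (Df.sn Df.id)))
    · simp only [h, if_false]
      exact Df.nD j (Df.fs Df.id)
  unfold mkN node
  exact Df.pr (Df.pr (Df.pr (h1 false) (h1 true)) (Df.pr (h2 false) (h2 true)))
    (Df.pr (Df.pr (h3 false) (h3 true)) (Df.pr (Df.fs Df.id) (Df.fs (Df.sn Df.id))))

private theorem nset_one [IS S] (J : JP S) {c : M → M → Prop}
    (hc : Dp S (fun p : M × M => c p.1 p.2)) (q b t s ρ : M) (i : Bool) :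
    ∃ N, ∀ v', Mem v' N ↔ ∃ v u p G, Legit J c q b t s ρ i v u p G ∧ v' = mkN b i v u p G := by
  obtain ⟨a, ha⟩ := compr (nset_dp J hc q b t s ρ i)
    (pr (sn q) (pr (pow2 (Qb b)) (pr (Qb b) (pow2 s))))
  obtain ⟨N, hN⟩ := exists_image (S := S) (nset_df b i) a
  refine ⟨N, fun v' => ?_⟩
  rw [hN]
  constructor
  · rintro ⟨x, hx, rfl⟩
    exact ⟨_, _, _, _, ((ha x).1 hx).2, rfl⟩
  · rintro ⟨v, u, p, G, hL, rfl⟩
    refine ⟨pr v (pr u (pr p G)), (ha _).2 ⟨?_, ?_⟩, ?_⟩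
    · have h4 : G < pow2 s := lt_pow2_iff.2 fun x hx => (hL.2.2.1 x hx).2.1
      refine (pr_lt_pr_left _ (mem_lt hL.1.1)).trans (pr_lt_pr_right _ ?_)
      refine (pr_lt_pr_left _ hL.1.2.1).trans (pr_lt_pr_right _ ?_)
      exact (pr_lt_pr_left _ hL.1.2.2.1).trans (pr_lt_pr_right _ h4)
    · simp only [fs_pr, sn_pr]
      exact hL
    · simp only [fs_pr, sn_pr]

theorem exists_N [IS S] (J : JP S) {c : M → M → Prop} (hc : Dp S (fun p : M × M => c p.1 p.2))
    (q b t s ρ : M) : ∃ N, ∀ v', Mem v' N ↔ New J c q b t s ρ v' := by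
  obtain ⟨N0, h0⟩ := nset_one J hc q b t s ρ false
  obtain ⟨N1, h1⟩ := nset_one J hc q b t s ρ true
  refine ⟨un N0 N1, fun v' => ?_⟩
  rw [mem_un, h0, h1]
  unfold New
  rw [Bool.exists_bool]

end Pool.Agent.Work.MP_dfab40_lc.R.NL
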