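import Pool.Agent.Work.MP_dfab40_lc.R.C.NRes

/-!
# Module `NStr` (block C): from the weak form `ClW` to `Cl`

With the final form of `Cl` (second part only for the nodes in use) this is only a reformulation.
-/

namespace Pool.Agent.Work.MP_dfab40_lc.R.NL

open Pool.Agent.Work.MP_dfab40_lc.R

variable {M : Type} [PAm M] [ISig M] {S : Set (Set M)}

theorem strong [IS S] (J : JP S) {c : M → M → Prop} {s N : M}
    (h : ∀ n, s ≤ n → ∃ Z, ClW J c (pr s N) n (ap Z)) :
    ∃ N', (∀ v, Mem v N' → Mem v N) ∧ ∀ n, s ≤ n → ∃ Z, Cl J c (pr s N') n Z := by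
  refine ⟨N, fun v hv => hv, fun n hn => ?_⟩
  obtain ⟨Z, h1, h2⟩ := h n hn
  refine ⟨Z, fun y hy hs => h1 y hs hy, ?_⟩
  rintro v ⟨y, hyn, hys, rfl⟩ j G hG hH e he hT
  exact h2 y hys hyn j G hG hH e he hT

end Pool.Agent.Work.MP_dfab40_lc.R.NL
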