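import Pool.Agent.Work.MP_dfab40_lc.R.C.NRes

/-!
# Module `NNorm` (block C, size S-M: bounded codes of assignments)

PROOF.  `f y := if fs q ≤ y ∧ y < n then z y else 0` (`Df.ite`, `Dp.and`, `Dp.le`, `Dp.lt`), `Z := tab n f`.
For `y < n` we have `ap Z y = f y` (`ap_tab`), so `= z y` if `fs q ≤ y`.
All values `f y` are `< pr (sn q) (pow2 (Qb b)) + 1`: if `fs q ≤ y < n`, the first part of `ClW` gives
`Mem (fs (z y)) (sn q)`, so `fs (z y) < sn q` (`mem_lt`), and `sn (z y) < pow2 (Qb b)`, so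
`z y = pr (fs (z y)) (sn (z y)) < pr (sn q) (pow2 (Qb b))` (`pr_fs_sn`, `pr_lt_pr_left`,
`pr_lt_pr_right`).  So `Z < bd q b n` by `tab_lt`.  `clP_congr` for the last part.
-/

namespace Pool.Agent.Work.MP_dfab40_lc.R.NL

open Pool.Agent.Work.MP_dfab40_lc.R

variable {M : Type} [PAm M] [ISig M] {S : Set (Set M)}

theorem df_ap (Z : M) : Df S (ap Z) := Df.ap (Df.const Z) Df.id

theorem clP_canon [IS S] (J : JP S) {c : M → M → Prop} {q b n t : M} {z : M → M} (hz : Df S z)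
    (h : ClP J c q b n t z) :
    ∃ Z, Z < bd q b n ∧ (∀ y, fs q ≤ y → y < n → ap Z y = z y) ∧ ClP J c q b n t (ap Z) := by
  have hP : Dp S (fun y : M => fs q ≤ y ∧ y < n) :=
    Dp.and (Dp.le (Df.const _) Df.id) (Dp.lt Df.id (Df.const _))
  obtain ⟨f, hfd⟩ : ∃ f : M → M, f = fun y =>
    @ite M (fs q ≤ y ∧ y < n) (Classical.propDecidable _) (z y) 0 := ⟨_, rfl⟩
  have hf : Df S f := by
    rw [hfd]
    exact Df.ite hP hz (Df.const 0)
  have e1 : ∀ y, fs q ≤ y → y < n → f y = z y := by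
    intro y h1 h2
    rw [hfd]
    exact if_pos ⟨h1, h2⟩
  have hval : ∀ y, y < n → f y < pr (sn q) (pow2 (Qb b)) + 1 := by
    intro y hy
    rw [lt_succ_iff]
    by_cases hqy : fs q ≤ y
    · rw [e1 y hqy hy]
      have h2 := mem_lt (h.1.1 y hqy hy).1
      have h3 := h.2.1 y hqy hy
      have h4 : pr (fs (z y)) (sn (z y)) < pr (sn q) (pow2 (Qb b)) :=
        (pr_lt_pr_left _ h2).trans (pr_lt_pr_right _ h3)
      rw [pr_fs_sn] at h4
      exact h4.le
    · have e2 : f y = 0 := by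
        rw [hfd]
        exact if_neg fun h => hqy h.1
      rw [e2]
      exact zero_le
  have e3 : ∀ y, fs q ≤ y → y < n → ap (tab n f) y = z y := by
    intro y h1 h2
    rw [ap_tab hf h2]
    exact e1 y h1 h2
  exact ⟨tab n f, tab_lt hf hval, e3, clP_congr J h e3⟩

end Pool.Agent.Work.MP_dfab40_lc.R.NL
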