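import Pool.Agent.Work.MP_dfab40_lc.R.C.NEx
import Pool.Agent.Work.MP_dfab40_lc.R.C.NClW
import Pool.Agent.Work.MP_dfab40_lc.R.C.NDp
import Pool.Agent.Work.MP_dfab40_lc.R.C.NNorm

/-!
# Module `NZp` (block C, size M: codes of the new assignments)

PROOF.  Take `Z` from `hS.ext n hn`.  Let `Q y v' := (Mem v' N ∧ nI v' = ap Z y ∧ ∀ j x, Mem x (nF j v') →
col c j x y) ∨ ¬ (s ≤ y ∧ y < n)`: it is `Dp` (`Dp.mem`, `Dp.eq`, `Df.sn`, for `j : Bool` a conjunction of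
two `Dp.allMem` with `Dp.col`), and for every `y` there is `v'` with `Q y v'` (`new_exists` and `hN` if
`s ≤ y < n`, otherwise `0`).  So `f y := mu (Q y)` is `Df S` (`Df.mu`) and `Q y (f y)` (`mu_spec`).  Let
`Z' := tab n f`; for `s ≤ y < n` we have `ap Z' y = f y` (`ap_tab`).  `new_clW` with `z := ap Z`,
`z' := ap Z'`.
-/

namespace Pool.Agent.Work.MP_dfab40_lc.R.NL

open Pool.Agent.Work.MP_dfab40_lc.R

variable {M : Type} [PAm M] [ISig M] {S : Set (Set M)}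

theorem exists_Zp [IS S] (J : JP S) {c : M → M → Prop} (hc : Dp S (fun p : M × M => c p.1 p.2))
    {q b t s ρ : M} (hS : Setup J c q b t s ρ) {N : M}
    (hN : ∀ v', Mem v' N ↔ New J c q b t s ρ v') {n : M} (hn : s ≤ n) :
    ∃ Z', ClW J c (pr s N) n (ap Z') := by
  obtain ⟨Z, hZ, hZρ⟩ := hS.ext n hn
  let Q : M → M → Prop := fun y v' => (Mem v' N ∧ nI v' = ap Z y ∧
    ∀ j x, Mem x (nF j v') → col c j x y) ∨ ¬ (s ≤ y ∧ y < n)
  have hcol : ∀ j : Bool, Dp S (fun p : M × M => ∀ x, Mem x (nF j p.2) → col c j x p.1) := fun j =>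
    Dp.allMem (P := fun (p : M × M) x => col c j x p.1) (Df.nF j (Df.snd Df.id))
      (Dp.col hc j (Df.snd Df.id) (Df.fst (Df.fst Df.id)))
  have hcol' : Dp S (fun p : M × M => ∀ j x, Mem x (nF j p.2) → col c j x p.1) :=
    Dp.congr (Dp.and (hcol false) (hcol true)) fun p => by rw [Bool.forall_bool]
  have hI : Df S (fun p : M × M => nI p.2) := Df.sn (Df.sn (Df.snd Df.id))
  have hQ : Dp S (fun p : M × M => Q p.1 p.2) := by
    refine Dp.or (Dp.and (Dp.mem (Df.snd Df.id) (Df.const N)) (Dp.and (Dp.eq hI ?_) hcol'))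
      (Dp.not (Dp.and (Dp.le (Df.const s) (Df.fst Df.id)) (Dp.lt (Df.fst Df.id) (Df.const n))))
    exact Df.ap (Df.const Z) (Df.fst Df.id)
  have hex : ∀ y, ∃ v', Q y v' := by
    intro y
    by_cases hy : s ≤ y ∧ y < n
    · obtain ⟨v', h1, h2, h3⟩ := new_exists J hc hS hZ hy.1 hy.2
      exact ⟨v', Or.inl ⟨(hN v').2 h1, h2, h3⟩⟩
    · exact ⟨0, Or.inr hy⟩
  have hf : Df S (fun y => mu (Q y)) := Df.mu hQ hex
  have hsp : ∀ y, Q y (mu (Q y)) := fun y =>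
    mu_spec (Dp.comp (P := fun p : M × M => Q p.1 p.2) hQ (Df.pair (Df.const y) Df.id)) (hex y)
  refine ⟨tab n (fun y => mu (Q y)), new_clW J hS hn hZ hZρ hN fun y hy hyn => ?_⟩
  have hap : ap (tab n (fun y => mu (Q y))) y = mu (Q y) := ap_tab hf hyn
  rw [hap]
  rcases hsp y with h | h
  · exact h
  · exact absurd ⟨hy, hyn⟩ h

end Pool.Agent.Work.MP_dfab40_lc.R.NL
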