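import Pool.Agent.Work.MP_dfab40_lc.R.C.NMax
import Pool.Agent.Work.MP_dfab40_lc.R.C.NDie
import Pool.Agent.Work.MP_dfab40_lc.R.C.NBig
import Pool.Agent.Work.MP_dfab40_lc.R.C.NRho
import Pool.Agent.Work.MP_dfab40_lc.R.C.NOK
import Pool.Agent.Work.MP_dfab40_lc.R.C.NSet
import Pool.Agent.Work.MP_dfab40_lc.R.C.NZp
import Pool.Agent.Work.MP_dfab40_lc.R.C.NStr

/-!
# Module `NFin` (block C, size S-M: assembly)

PROOF.  `b := q`.  `rlz_zero`, `exists_maxT` give `t`; `leaf_dies`, `exists_stage` give `s > q`;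
`exists_rho` gives `ρ`; these form a `Setup` (`nB j v ≤ v < sn q ≤ q`; `fs q ≤ q < s`; `cl` from `ext` at
`n = s` by `clP_congr`).  `exists_N`, `exists_Zp`, `strong` give `N'`; `q' := pr s N'`; `new_ok`.
-/

namespace Pool.Agent.Work.MP_dfab40_lc.R.NL

open Pool.Agent.Work.MP_dfab40_lc.R

variable {M : Type} [PAm M] [ISig M] {S : Set (Set M)}

theorem next [IS S] (J : JP S) (c : M → M → Prop) (hc : Dp S (fun p : M × M => c p.1 p.2)) (q : M)
    (hq : Valid J c q) : ∃ q', Valid J c q' ∧ Req q q' := by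
  obtain ⟨t, hT, hR, hmax⟩ := exists_maxT J hc q q (rlz_zero J q hq)
  obtain ⟨s, hqs, hs⟩ := exists_stage J hc (q := q) (b := q) (t := t)
    (fun v u p hL => leaf_dies J hT hmax hL)
  obtain ⟨ρ, hρ⟩ := exists_rho J hc hR s
  have hfs : fs q ≤ s := le_trans (fs_le q) hqs.le
  have hcl : ClP J c q q s t (ap ρ) := by
    obtain ⟨Z, hZ, hZρ⟩ := hρ s le_rfl
    exact clP_congr J hZ (fun y h1 h2 => (hZρ y h1 h2).symm)
  have hnB : ∀ v, Mem v (sn q) → ∀ j, nB j v ≤ q := by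
    intro v hv j
    have h1 : nB j v ≤ v := by
      cases j
      · exact le_trans (fs_le _) (le_trans (sn_le _) (fs_le _))
      · exact le_trans (sn_le _) (le_trans (sn_le _) (fs_le _))
    exact le_trans h1 (le_trans (mem_lt hv).le (sn_le q))
  have hS : Setup J c q q t s ρ := ⟨hq.1, hnB, hT, hfs, hs, hcl, hρ⟩
  obtain ⟨N, hN⟩ := exists_N J hc q q t s ρ
  obtain ⟨N', hN', hV⟩ := strong J (c := c) (s := s) (N := N)
    (fun n hn => exists_Zp J hc hS hN hn)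
  have hnew : ∀ v', Mem v' N' → NodeOK J c s v' ∧ (∃ v, Mem v (sn q) ∧ Ext (fs q) v v') ∧
      ∃ j : Bool, q ≤ nB j v' := fun v' hv' => new_ok J hS ((hN v').1 (hN' v' hv'))
  refine ⟨pr s N', ⟨?_, ?_⟩, ?_, ?_, ?_⟩
  · intro v' hv'
    rw [sn_pr] at hv'
    rw [fs_pr]
    exact (hnew v' hv').1
  · intro n hn
    rw [fs_pr] at hn
    exact hV n hn
  · exact lt_of_lt_of_le hqs (left_le_pr s N')
  · rw [fs_pr]
    exact hfs
  · intro v' hv'
    rw [sn_pr] at hv'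
    exact (hnew v' hv').2

end Pool.Agent.Work.MP_dfab40_lc.R.NL
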