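import Pool.Agent.Work.MP_dfab40_lc.R.C.NReal

/-!
# Module `NMax` (block C, size M: a maximal realizable tree)

PROOF.  `greatest_P1` for `P t := Tree q b t ∧ Rlz J c q b t`.  `¬ P t ↔ ¬ Tree ∨ ¬ Rlz`: `S1.or`,
`(dp_tree ..).2`, `p1_rlz` (and `Dp.congr`-like rewriting: `S1` of equivalent predicates, use
`funext`/`propext`).  Bound: if `Tree q b t` then `t < pow2 (pr (sn q) (pr (pow2 (Qb b)) (Qb b)))` by
`lt_pow2_iff`: a member is `x = pr (fs x) (pr (fs (sn x)) (sn (sn x)))` with `fs x < sn q` (`mem_lt`),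
`fs (sn x) < pow2 (Qb b)`, `sn (sn x) < Qb b`; `pr_lt_pr_left`, `pr_lt_pr_right`.
Nonempty: `P 0` (`not_mem_zero`, `h0`).  The conclusion `∀ y, t < y → ¬ P y` gives the third part.
-/

namespace Pool.Agent.Work.MP_dfab40_lc.R.NL

open Pool.Agent.Work.MP_dfab40_lc.R

variable {M : Type} [PAm M] [ISig M] {S : Set (Set M)}

private theorem tree_zero (q b : M) : Tree q b 0 :=
  ⟨fun x hx => absurd hx (not_mem_zero x), fun _ _ _ _ h => absurd h (not_mem_zero _),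
    fun _ _ _ _ h => absurd h (not_mem_zero _)⟩

private theorem tree_lt {q b t : M} (h : Tree q b t) :
    t < pow2 (pr (sn q) (pr (pow2 (Qb b)) (Qb b))) := by
  refine lt_pow2_iff.2 fun x hx => ?_
  obtain ⟨h1, h2, h3⟩ := h.1 x hx
  have h4 : sn x < pr (pow2 (Qb b)) (Qb b) := by
    calc sn x = pr (fs (sn x)) (sn (sn x)) := (pr_fs_sn _).symm
      _ < pr (pow2 (Qb b)) (sn (sn x)) := pr_lt_pr_left _ h2
      _ < pr (pow2 (Qb b)) (Qb b) := pr_lt_pr_right _ h3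
  calc x = pr (fs x) (sn x) := (pr_fs_sn _).symm
    _ < pr (sn q) (sn x) := pr_lt_pr_left _ (mem_lt h1)
    _ < pr (sn q) (pr (pow2 (Qb b)) (Qb b)) := pr_lt_pr_right _ h4

theorem exists_maxT [IS S] (J : JP S) {c : M → M → Prop} (hc : Dp S (fun p : M × M => c p.1 p.2))
    (q b : M) (h0 : Rlz J c q b 0) :
    ∃ t, Tree q b t ∧ Rlz J c q b t ∧ ∀ t', Tree q b t' → Rlz J c q b t' → t' ≤ t := by
  have hP : S1 S (fun t : M => ¬ (Tree q b t ∧ Rlz J c q b t)) := by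
    have h1 := S1.or (dp_tree (S := S) (Df.const q) (Df.const b) (Df.id (A := M))).2
      (p1_rlz J hc q b)
    have h2 : (fun t : M => ¬ (Tree q b t ∧ Rlz J c q b t)) =
        fun t => ¬ Tree q b t ∨ ¬ Rlz J c q b t := funext fun t => propext not_and_or
    rw [h2]
    exact h1
  obtain ⟨t, ht, hmax⟩ := greatest_P1 (P := fun t => Tree q b t ∧ Rlz J c q b t) hP _
    (fun t ht => tree_lt ht.1) ⟨0, tree_zero q b, h0⟩
  exact ⟨t, ht.1, ht.2, fun t' h1 h2 => not_lt.1 fun h3 => hmax t' h3 ⟨h1, h2⟩⟩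

end Pool.Agent.Work.MP_dfab40_lc.R.NL
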