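import Pool.Agent.Work.MP_dfab40_lc.R.C.NDef

/-!
# Module `NQ` (block C, size S-M: the questions)

PROOF.  `lt_Qb`: write `p = pr a a'` (`pr_fs_sn`), `β = pow2 b`.  If `a, a' < β` then `pr_lt_sq`.
Conversely unfold `pr`: if `a < a'` the value is `a' * a' + a`, and `β ≤ a'` would give
`β * β ≤ a' * a' ≤ pr a a'`; so `a < a' < β`.  Otherwise the value is `a * a + a + a'`, so `a < β` and
`a' ≤ a < β`.  `Sd_up_self`, `Sd_up_not`: cases on `i`, `fs_pr`, `sn_pr`.
`lt_up`: `Sd i p < ins e (Sd i p)` (`le_of_subset` gives `≤`; equality would give `e ∈ Sd i p`), then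
`pr_lt_pr_left` or `pr_lt_pr_right`, and `p = pr (fs p) (sn p)`.
`mem_Sd_lt`: `lt_Qb` and `lt_pow2_iff`.  `up_lt`: `lt_Qb`, `lt_pow2_iff`, `mem_ins`.
`not_mem_Sd_zero`: `pr 0 0 = 0` by unfolding `pr`, so `fs 0 = 0` and `sn 0 = 0`.
-/

namespace Pool.Agent.Work.MP_dfab40_lc.R.NL

open Pool.Agent.Work.MP_dfab40_lc.R

variable {M : Type} [PAm M] [ISig M]

private theorem nq_key {b : M} (a a' : M) (h : pr a a' < Qb b) : a < pow2 b ∧ a' < pow2 b := by
  unfold pr Qb at h
  split_ifs at h with h1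
  · have h2 : a' < pow2 b := by
      by_contra hc
      have hc' := not_lt.1 hc
      have h3 := mul_le_mul' hc' hc'
      have h4 : a' * a' ≤ a' * a' + a := le_self_add
      exact absurd h (not_lt.2 (h3.trans h4))
    exact ⟨h1.trans h2, h2⟩
  · have h2 : a < pow2 b := by
      by_contra hc
      have hc' := not_lt.1 hc
      have h3 := mul_le_mul' hc' hc'
      have h4 : a * a ≤ a * a + a + a' := by
        rw [add_assoc]
        exact le_self_add
      exact absurd h (not_lt.2 (h3.trans h4))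
    exact ⟨h2, lt_of_le_of_lt (not_lt.1 h1) h2⟩

theorem lt_Qb {b p : M} : p < Qb b ↔ fs p < pow2 b ∧ sn p < pow2 b := by
  constructor
  · intro h
    exact nq_key (fs p) (sn p) (by rw [pr_fs_sn]; exact h)
  · rintro ⟨h1, h2⟩
    have h3 := pr_lt_sq h1 h2
    rw [pr_fs_sn] at h3
    exact h3

theorem Sd_up_self (i : Bool) (e p : M) : Sd i (up i e p) = ins e (Sd i p) := by
  cases i
  · show fs (pr (ins e (fs p)) (sn p)) = ins e (fs p)
    rw [fs_pr]
  · show sn (pr (fs p) (ins e (sn p))) = ins e (sn p)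
    rw [sn_pr]

theorem Sd_up_not (i : Bool) (e p : M) : Sd (!i) (up i e p) = Sd (!i) p := by
  cases i
  · show sn (pr (ins e (fs p)) (sn p)) = sn p
    rw [sn_pr]
  · show fs (pr (fs p) (ins e (sn p))) = fs p
    rw [fs_pr]

theorem lt_up {i : Bool} {e p : M} (h : ¬ Mem e (Sd i p)) : p < up i e p := by
  have key : Sd i p < ins e (Sd i p) := by
    refine lt_of_le_of_ne (le_of_subset fun x hx => mem_ins.2 (Or.inr hx)) fun heq => h ?_
    have h1 : Mem e (ins e (Sd i p)) := mem_ins.2 (Or.inl rfl)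
    rw [← heq] at h1
    exact h1
  cases i
  · calc p = pr (fs p) (sn p) := (pr_fs_sn p).symm
      _ < pr (ins e (fs p)) (sn p) := pr_lt_pr_left _ key
  · calc p = pr (fs p) (sn p) := (pr_fs_sn p).symm
      _ < pr (fs p) (ins e (sn p)) := pr_lt_pr_right _ key

private theorem nq_Sd {i : Bool} {p b : M} (h : p < Qb b) : Sd i p < pow2 b := by
  have h1 := lt_Qb.1 h
  cases i
  · exact h1.1
  · exact h1.2

theorem mem_Sd_lt {i : Bool} {e p b : M} (h : p < Qb b) (he : Mem e (Sd i p)) : e < b :=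
  lt_pow2_iff.1 (nq_Sd h) e he

theorem up_lt {i : Bool} {e p b : M} (h : p < Qb b) (he : e < b) : up i e p < Qb b := by
  have h1 := lt_Qb.1 h
  have key : ∀ a : M, a < pow2 b → ins e a < pow2 b := by
    intro a ha
    rw [lt_pow2_iff] at ha ⊢
    intro x hx
    rcases mem_ins.1 hx with h2 | h2
    · rw [h2]
      exact he
    · exact ha x h2
  rw [lt_Qb]
  cases i
  · show fs (pr (ins e (fs p)) (sn p)) < pow2 b ∧ sn (pr (ins e (fs p)) (sn p)) < pow2 b
    rw [fs_pr, sn_pr]
    exact ⟨key _ h1.1, h1.2⟩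
  · show fs (pr (fs p) (ins e (sn p))) < pow2 b ∧ sn (pr (fs p) (ins e (sn p))) < pow2 b
    rw [fs_pr, sn_pr]
    exact ⟨h1.1, key _ h1.2⟩

theorem not_mem_Sd_zero (i : Bool) (e : M) : ¬ Mem e (Sd i (0 : M)) := by
  have h0 : pr (0 : M) 0 = 0 := by
    unfold pr
    simp
  have h1 : fs (0 : M) = 0 := by
    have := fs_pr (0 : M) 0
    rw [h0] at this
    exact this
  have h2 : sn (0 : M) = 0 := by
    have := sn_pr (0 : M) 0
    rw [h0] at this
    exact this
  cases i
  · show ¬ Mem e (fs (0 : M))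
    rw [h1]
    exact not_mem_zero e
  · show ¬ Mem e (sn (0 : M))
    rw [h2]
    exact not_mem_zero e

end Pool.Agent.Work.MP_dfab40_lc.R.NL
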