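import Pool.Agent.Work.MP_dfab40_lc.R.C.NNorm
import Pool.Agent.Work.MP_dfab40_lc.R.C.NDp

/-!
# Module `NReal` (block C, size M: the empty tree is realizable; realizability is `Π_1`)

PROOF.  `rlz_zero`: let `n` be given.  If `n ≤ fs q` every `Z` is good (no `y` with `fs q ≤ y < n`; a
nonempty `G` in a cell is impossible; `InT 0` is false by `not_mem_zero`).  If `fs q ≤ n` take `Z` with
`Cl J c q n Z` from `hq.2`, and `Z' := tab n (fun y => pr (ap Z y) 0)`; for `y < n`: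
`ap Z' y = pr (ap Z y) 0`, so `fs (ap Z' y) = ap Z y` and `sn (ap Z' y) = 0 < pow2 (Qb b)` (`pow2_pos`).
`ClW` for `fun y => fs (ap Z' y)` follows from the two parts of `Cl` (`clW_congr` from `ap Z`; the second
part with `v := ap Z y`, a member of `sn q`).
`p1_rlz`: `¬ Rlz J c q b t ↔ ∃ n, ∀ Z, Z < bd q b n → ¬ ClP J c q b n t (ap Z)`: if
`∀ n, ∃ Z < bd q b n` fails at `n` then there is no `Z` at all, by `clP_canon` (`df_ap`).  Then `S1.ex`,
`S1.ball` (or `Dp.ball` and `.1`), `Dp.not`, `dp_clP` with `g a y = ap (Z a) y`.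
-/

namespace Pool.Agent.Work.MP_dfab40_lc.R.NL

open Pool.Agent.Work.MP_dfab40_lc.R

variable {M : Type} [PAm M] [ISig M] {S : Set (Set M)}

theorem rlz_zero [IS S] (J : JP S) {c : M → M → Prop} {q : M} (b : M) (hq : Valid J c q) :
    Rlz J c q b 0 := by
  intro n
  rcases le_total n (fs q) with hn | hn
  · refine ⟨0, ⟨fun y hy hyn => ?_, fun y hy hyn => ?_⟩, fun y hy hyn => ?_, fun v w p ht => ?_⟩
    · exact absurd (lt_of_lt_of_le hyn hn) (not_lt.2 hy)
    · exact absurd (lt_of_lt_of_le hyn hn) (not_lt.2 hy)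
    · exact absurd (lt_of_lt_of_le hyn hn) (not_lt.2 hy)
    · exact absurd ht (not_mem_zero _)
  · obtain ⟨Z, hZ⟩ := hq.2 n hn
    have hf : Df S (fun y => pr (ap Z y) 0) := Df.pr (Df.ap (Df.const Z) Df.id) (Df.const 0)
    have hap : ∀ y, y < n → ap (tab n (fun y => pr (ap Z y) 0)) y = pr (ap Z y) 0 :=
      fun y hy => ap_tab hf hy
    refine ⟨tab n (fun y => pr (ap Z y) 0), ?_, fun y hy hyn => ?_,
      fun v w p ht => absurd ht (not_mem_zero _)⟩
    · have h0 : ClW J c q n (ap Z) := by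
        refine ⟨fun y hy hyn => hZ.1 y hyn hy, ?_⟩
        intro y hy hyn j G hG hH e he hT
        exact hZ.2 (ap Z y) ⟨y, hyn, hy, rfl⟩ j G hG hH e he hT
      refine clW_congr J h0 fun y hy hyn => ?_
      rw [hap y hyn, fs_pr]
    · rw [hap y hyn, sn_pr]
      exact pow2_pos _

theorem p1_rlz [IS S] (J : JP S) {c : M → M → Prop} (hc : Dp S (fun p : M × M => c p.1 p.2))
    (q b : M) : S1 S (fun t : M => ¬ Rlz J c q b t) := by
  have heq : (fun t : M => ¬ Rlz J c q b t) =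
      fun t : M => ∃ n : M, ∀ Z, Z < bd q b n → ¬ ClP J c q b n t (ap Z) := by
    funext t
    refine propext ⟨fun h => ?_, fun h hR => ?_⟩
    · unfold Rlz at h
      push Not at h
      obtain ⟨n, hn⟩ := h
      exact ⟨n, fun Z _ => hn Z⟩
    · obtain ⟨n, hn⟩ := h
      obtain ⟨Z, hZ⟩ := hR n
      obtain ⟨Z', hZ', -, hZ2⟩ := clP_canon (S := S) J (df_ap Z) hZ
      exact hn Z' hZ' hZ2
  rw [heq]
  have hbd : Df S (fun p : M × M => bd q b p.2) := by
    unfold bd
    have h1 : Df S (fun p : M × M => p.2 + (pr (sn q) (pow2 (Qb b)) + 1)) :=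
      Df.add (Df.snd Df.id) (Df.const _)
    exact Df.pow2 (Df.mul h1 h1)
  have hcl : Dp S (fun r : (M × M) × M => ClP J c q b r.1.2 r.1.1 (ap r.2)) :=
    dp_clP J hc (fq := fun _ => q) (fb := fun _ => b) (fn := fun r : (M × M) × M => r.1.2)
      (ft := fun r : (M × M) × M => r.1.1) (g := fun r : (M × M) × M => ap r.2)
      (Df.const q) (Df.const b) (Df.snd (Df.fst Df.id)) (Df.fst (Df.fst Df.id))
      (Df.ap (Df.snd (Df.fst Df.id)) (Df.snd Df.id))
  exact S1.ex (P := fun t n => ∀ Z, Z < bd q b n → ¬ ClP J c q b n t (ap Z))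
    (S1.ball (f := fun p : M × M => bd q b p.2)
      (P := fun p Z => ¬ ClP J c q b p.2 p.1 (ap Z)) hbd hcl.2)

end Pool.Agent.Work.MP_dfab40_lc.R.NL
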