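import Pool.Agent.Work.MP_dfab40_lc.R.C.NDef

/-!
# Module `NRes` (block C, size M: restriction and change of the assignment)

PROOF.  `kill_anti`: a nonempty `i`-homogeneous `G` in the side of the cell below `m` is in the same
side of the cell below `n`, so some `e ∈ Sd i p` has `¬ Th e n (un F G)`, hence `¬ Th e m (un F G)` by
`J.mono` (same set).  `clW_anti`: if `Th e m (un F G)` then `Th e n (un F G)` by `J.mono`; the premises
about `G` below `m` give those below `n`.  `clP_anti`: both.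
`kill_congr`: members of `G` are in `[fs q, n)`, where `z' = z`.  `clW_congr`: the same.
`clP_congr`: both (for `fun y => fs (z y)`).  `kill_agr`: in `InCell` the label `w` occurs only in
`Agr p _ w`, and `Agr` is transitive and symmetric.
-/

namespace Pool.Agent.Work.MP_dfab40_lc.R.NL

open Pool.Agent.Work.MP_dfab40_lc.R

variable {M : Type} [PAm M] [ISig M] {S : Set (Set M)}

theorem kill_anti (J : JP S) {c : M → M → Prop} {q n m v w p : M} {z : M → M}
    (h : Kill J c q n z v w p) (hm : m ≤ n) : Kill J c q m z v w p := by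
  intro i G hG hx hH
  obtain ⟨e, he, hT⟩ := h i G hG (fun x hxG => by
    obtain ⟨⟨h1, h2, h3, h4⟩, h5⟩ := hx x hxG
    exact ⟨⟨h1, lt_of_lt_of_le h2 hm, h3, h4⟩, h5⟩) hH
  exact ⟨e, he, fun hT' => hT (J.mono e m n _ _ hm (fun _ _ => Iff.rfl) hT')⟩

theorem clW_anti (J : JP S) {c : M → M → Prop} {q n m : M} {z : M → M}
    (h : ClW J c q n z) (hm : m ≤ n) : ClW J c q m z := by
  refine ⟨fun y hy hym => h.1 y hy (lt_of_lt_of_le hym hm), ?_⟩
  intro y hy hym j G hG hH e he hT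
  refine h.2 y hy (lt_of_lt_of_le hym hm) j G (fun x hx => ?_) hH e he
    (J.mono e m n _ _ hm (fun _ _ => Iff.rfl) hT)
  obtain ⟨h1, h2, h3⟩ := hG x hx
  exact ⟨h1, lt_of_lt_of_le h2 hm, h3⟩

theorem clP_anti (J : JP S) {c : M → M → Prop} {q b n m t : M} {z : M → M}
    (h : ClP J c q b n t z) (hm : m ≤ n) : ClP J c q b m t z :=
  ⟨clW_anti J h.1 hm, fun y hy hym => h.2.1 y hy (lt_of_lt_of_le hym hm),
    fun v w p ht => kill_anti J (h.2.2 v w p ht) hm⟩

theorem kill_congr (J : JP S) {c : M → M → Prop} {q n v w p : M} {z z' : M → M}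
    (h : Kill J c q n z v w p) (hz : ∀ y, fs q ≤ y → y < n → z' y = z y) :
    Kill J c q n z' v w p := by
  intro i G hG hx hH
  refine h i G hG (fun x hxG => ?_) hH
  obtain ⟨⟨h1, h2, h3, h4⟩, h5⟩ := hx x hxG
  rw [hz x h1 h2] at h3 h4 h5
  exact ⟨⟨h1, h2, h3, h4⟩, h5⟩

theorem clW_congr (J : JP S) {c : M → M → Prop} {q n : M} {z z' : M → M}
    (h : ClW J c q n z) (hz : ∀ y, fs q ≤ y → y < n → z' y = z y) : ClW J c q n z' := by
  refine ⟨fun y hy hyn => ?_, ?_⟩
  · rw [hz y hy hyn]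
    exact h.1 y hy hyn
  · intro y hy hyn j G hG hH e he hT
    rw [hz y hy hyn] at he hT ⊢
    refine h.2 y hy hyn j G (fun x hx => ?_) hH e he hT
    obtain ⟨h1, h2, h3⟩ := hG x hx
    rw [hz x h1 h2, hz y hy hyn] at h3
    exact ⟨h1, h2, h3⟩

theorem clP_congr (J : JP S) {c : M → M → Prop} {q b n t : M} {z z' : M → M}
    (h : ClP J c q b n t z) (hz : ∀ y, fs q ≤ y → y < n → z' y = z y) :
    ClP J c q b n t z' := by
  refine ⟨clW_congr J h.1 (fun y hy hyn => by rw [hz y hy hyn]), fun y hy hyn => ?_,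
    fun v w p ht => kill_congr J (h.2.2 v w p ht) hz⟩
  rw [hz y hy hyn]
  exact h.2.1 y hy hyn

theorem kill_agr (J : JP S) {c : M → M → Prop} {q n v w w' p : M} {z : M → M}
    (h : Kill J c q n z v w p) (hw : Agr p w w') : Kill J c q n z v w' p := by
  intro i G hG hx hH
  refine h i G hG (fun x hxG => ?_) hH
  obtain ⟨⟨h1, h2, h3, h4⟩, h5⟩ := hx x hxG
  exact ⟨⟨h1, h2, h3, fun r hr => (h4 r hr).trans (hw r hr).symm⟩, h5⟩

end Pool.Agent.Work.MP_dfab40_lc.R.NL
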