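import Pool.Agent.Work.MP_dfab40_lc.R.C.NSplit
import Pool.Agent.Work.MP_dfab40_lc.R.C.NQ

/-!
# Module `NSide` (block C, size M: the sides of a leaf)

PROOF of `side`.  Let `p' := up i e p`; `p < p' < Qb b` (`lt_up`, `up_lt`), so `InT t v u p'` by `hL`, and
`Kill J c q s (ap ρ) v u p'` by `hS.cl`.  Suppose the claim is false, so `Mem p' u ↔ (!i) = true`.
Apply `split` with `P := fun _ => (!i) = true` (`Dp.const`): we get `i₁, G` with `(!i) = true ↔ i₁ = true`
(as `G` is nonempty), so `i₁ = !i`.  Every `x ∈ G` is in the cell `(v, u, p')` (`Agr p` implies `Agr p'`),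
and `Mem p' (sn (ap ρ x)) ↔ Mem p' u ↔ (!i) = true` (`Agr p`, `p < p'`).  So `Kill` gives `e'` with
`Mem e' (Sd (!i) p') `, `¬ Th e' s (un (nF (!i) v) G)`.  But `Sd (!i) p' = Sd (!i) p` (`Sd_up_not`), and
`split` says that all its facts are true: contradiction.
PROOF of `neg`.  Suppose `¬ Mem e (Sd i p)`.  By `side`, `Mem p' u ↔ i = true` for `p' := up i e p`.  By
`hz`, `Kill J c q n z v u p'`.  `G` is on the side `i` of the cell `(v, u, p')` of `z` (as above).  So there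
is `e' ∈ Sd i p' = ins e (Sd i p)` (`Sd_up_self`) with `¬ Th e' n (un (nF i v) G)`.  If `e' = e` this
contradicts `hTh`, otherwise `hSd`.
-/

namespace Pool.Agent.Work.MP_dfab40_lc.R.NL

open Pool.Agent.Work.MP_dfab40_lc.R

variable {M : Type} [PAm M] [ISig M] {S : Set (Set M)}

theorem side [IS S] (J : JP S) {c : M → M → Prop} {q b t s ρ : M}
    (hS : Setup J c q b t s ρ) {v u p : M} (hL : Leaf q b t v u p) (i : Bool) {e : M} (he : e < b)
    (hn : ¬ Mem e (Sd i p)) : Mem (up i e p) u ↔ i = true := by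
  have hpp : p < up i e p := lt_up hn
  have hIn : InT t v u (up i e p) := hL.2.2.2.2 _ hpp (up_lt hL.2.2.1 he)
  have hK : Kill J c q s (ap ρ) v u (up i e p) := hS.cl.2.2 _ _ _ hIn
  by_contra hcon
  have h5 : Mem (up i e p) u ↔ (!i) = true := by
    by_cases hm : Mem (up i e p) u <;> cases i <;> simp [hm] at hcon ⊢
  obtain ⟨i1, G, hne, hG, hH, hT⟩ := split J hS hL (P := fun _ => (!i) = true) (Dp.const _)
  have hi : i1 = !i := by
    obtain ⟨x, hx⟩ := hne
    have h6 := (hG x hx).2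
    cases i <;> cases i1 <;> simp_all
  subst hi
  obtain ⟨e', he', hTe⟩ := hK (!i) G hne (fun x hx => by
    obtain ⟨⟨h1, h2, h3, h4⟩, -⟩ := hG x hx
    exact ⟨⟨h1, h2, h3, fun r hr => h4 r (hpp.trans hr)⟩, (h4 _ hpp).trans h5⟩) hH
  rw [Sd_up_not] at he'
  exact hTe (hT e' he')

theorem neg [IS S] (J : JP S) {c : M → M → Prop} {q b t s ρ : M}
    (hS : Setup J c q b t s ρ) {v u p : M} (hL : Leaf q b t v u p) {n : M} {z : M → M}
    (hz : ClP J c q b n t z) {i : Bool} {G : M} (h0 : ∃ x, Mem x G)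
    (hG : ∀ x, Mem x G → InCell q n z v u p x) (hH : Hom c i G)
    (hSd : ∀ e, Mem e (Sd i p) → J.Th e n (un (nF i v) G)) {e : M} (he : e < b)
    (hTh : J.Th e n (un (nF i v) G)) : Mem e (Sd i p) := by
  by_contra hn
  have hs := side J hS hL i he hn
  have hpp : p < up i e p := lt_up hn
  have hIn : InT t v u (up i e p) := hL.2.2.2.2 _ hpp (up_lt hL.2.2.1 he)
  obtain ⟨e', he', hTe⟩ := hz.2.2 _ _ _ hIn i G h0 (fun x hx => by
    obtain ⟨h1, h2, h3, h4⟩ := hG x hx
    exact ⟨⟨h1, h2, h3, fun r hr => h4 r (hpp.trans hr)⟩, (h4 _ hpp).trans hs⟩) hH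
  rw [Sd_up_self, mem_ins] at he'
  rcases he' with rfl | he'
  · exact hTe hTh
  · exact hTe (hSd e' he')

end Pool.Agent.Work.MP_dfab40_lc.R.NL
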