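import Pool.Agent.Work.MP_dfab40_lc.R.C.NRes
import Pool.Agent.Work.MP_dfab40_lc.R.C.NDa

/-!
# Module `NSplit` (block C, size L: no cover of a leaf cell is killed)

PROOF.  Suppose not.  Define `del u := sep u (fun x => Mem x u ∧ x ≠ p)` (so `Mem x (del u) ↔ Mem x u ∧
x ≠ p`; `Df.sep`, `mem_sep`), and `z y := if InCell q s (ap ρ) v u p y then (if P y then
pr v (ins p (sn (ap ρ y))) else pr v (del (sn (ap ρ y)))) else ap ρ y`.  It is `Df S` (`Df.ite`,
`dp_inCell`, `hP`).  Let `Z := tab s z`, so `ap Z y = z y` for `y < s`.  For `y < s` in the cell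
(w.r.t. `ρ`): `fs (z y) = v = fs (ap ρ y)`, `Mem r (sn (z y)) ↔ Mem r (sn (ap ρ y))` for all `r ≠ p`, and
`Mem p (sn (z y)) ↔ P y`.  For `y` not in the cell `z y = ap ρ y`.  So always `fs (z y) = fs (ap ρ y)`
and `Agr p (sn (z y)) (sn (ap ρ y))`; in particular the cell `(v, u, p)` is the same for `z` and `ρ`.
(1) `ClP J c q b s t (ap Z)`: `ClW` by `clW_congr` from `hS.cl`; the labels are `< pow2 (Qb b)` by
`lt_pow2_iff` (`p < Qb b`).  Killing: let `InT t v' w p'`, `G` nonempty on the side `i` of the cell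
`(v', w, p')` of `z`.  Claim: every `x ∈ G` is on the side `i` of the same cell for `ρ`; then `hS.cl`
gives the conclusion.  If `x` is not in the leaf cell then `z x = ap ρ x`.  If it is, then `v' = v`.  If
`p < p'` then `r = p` plays no role.  If `p' ≤ p`: `Agr p' (sn (z x)) w` gives `Agr p (sn (z x)) w`, so
`Agr p w u` (cell: `Agr p (sn (ap ρ x)) u`), and `InT t v w p` (`hS.tree`, third part if `p' < p`), so
`InT t v u p` by the second part of `hS.tree` (`u < pow2 (Qb b)`), against `hL`.
(2) `Kill J c q s (ap Z) v u p`: let `G` be nonempty, `i`-homogeneous, on the side `i` of the cell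
`(v, u, p)` of `z`.  Its members are in the cell of `ρ` and `P x ↔ Mem p (sn (z x)) ↔ i = true`.  If all
`e ∈ Sd i p` satisfied `Th e s (un (nF i v) G)`, then `i, G` would be as in the conclusion, which we
supposed to be false.
(1) and (2) contradict `hS.noLeaf`.
-/

namespace Pool.Agent.Work.MP_dfab40_lc.R.NL

open Pool.Agent.Work.MP_dfab40_lc.R

variable {M : Type} [PAm M] [ISig M] {S : Set (Set M)}

/-- Removing the question `p` from a label. -/
private noncomputable def del (p w : M) : M := sep w (fun x => Mem x w ∧ x ≠ p)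

private theorem dp_del (p w : M) : Dp (∅ : Set (Set M)) (fun x : M => Mem x w ∧ x ≠ p) :=
  (Dp.mem Df.id (Df.const w)).and (Dp.ne Df.id (Df.const p))

private theorem mem_del {p w x : M} : Mem x (del p w) ↔ Mem x w ∧ x ≠ p := by
  unfold del
  rw [mem_sep (dp_del p w)]
  constructor
  · exact fun h => h.2
  · exact fun h => ⟨mem_lt h.1, h⟩

private theorem df_del [IS S] (p : M) {f : M → M} (hf : Df S f) : Df S (fun a => del p (f a)) := by
  unfold del
  refine Df.sep hf ((Dp.mem (Df.snd Df.id) (Df.comp hf (Df.fst Df.id))).and ?_)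
  exact Dp.ne (Df.snd Df.id) (Df.const p)

private theorem agr_trans {p u w x : M} (h : Agr p u w) (h' : Agr p w x) : Agr p u x :=
  fun r hr => (h r hr).trans (h' r hr)

private theorem agr_symm {p u w : M} (h : Agr p u w) : Agr p w u := fun r hr => (h r hr).symm

private theorem agr_mono {p p' u w : M} (h : Agr p u w) (hp : p ≤ p') : Agr p' u w :=
  fun r hr => h r (lt_of_le_of_lt hp hr)

theorem split [IS S] (J : JP S) {c : M → M → Prop} {q b t s ρ : M}
    (hS : Setup J c q b t s ρ) {v u p : M} (hL : Leaf q b t v u p) {P : M → Prop} (hP : Dp S P) :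
    ∃ (i : Bool) (G : M), (∃ x, Mem x G) ∧
      (∀ x, Mem x G → InCell q s (ap ρ) v u p x ∧ (P x ↔ i = true)) ∧ Hom c i G ∧
      ∀ e, Mem e (Sd i p) → J.Th e s (un (nF i v) G) := by
  classical
  by_contra hno
  let z : M → M := fun y => if InCell q s (ap ρ) v u p y then
    (if P y then pr v (ins p (sn (ap ρ y))) else pr v (del p (sn (ap ρ y)))) else ap ρ y
  have hap : Df S (fun y : M => ap ρ y) := Df.ap (Df.const ρ) Df.id
  have hsn : Df S (fun y : M => sn (ap ρ y)) := Df.sn hap
  have hz : Df S z := by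
    refine Df.ite ?_ (Df.ite hP ?_ ?_) hap
    · exact dp_inCell (g := fun _ : M => ap ρ) (Df.const q) (Df.const s)
        (Df.ap (Df.const ρ) (Df.snd Df.id)) (Df.const v) (Df.const u) (Df.const p) Df.id
    · exact Df.pr (Df.const v) (Df.ins (Df.const p) hsn)
    · exact Df.pr (Df.const v) (df_del p hsn)
  -- values of z
  have z1 : ∀ y, InCell q s (ap ρ) v u p y → P y → z y = pr v (ins p (sn (ap ρ y))) := by
    intro y h1 h2
    simp only [z, if_pos h1, if_pos h2]
  have z2 : ∀ y, InCell q s (ap ρ) v u p y → ¬ P y → z y = pr v (del p (sn (ap ρ y))) := by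
    intro y h1 h2
    simp only [z, if_pos h1, if_neg h2]
  have z3 : ∀ y, ¬ InCell q s (ap ρ) v u p y → z y = ap ρ y := by
    intro y h1
    simp only [z, if_neg h1]
  have zf : ∀ y, fs (z y) = fs (ap ρ y) := by
    intro y
    by_cases h1 : InCell q s (ap ρ) v u p y
    · by_cases h2 : P y
      · rw [z1 y h1 h2, fs_pr, h1.2.2.1]
      · rw [z2 y h1 h2, fs_pr, h1.2.2.1]
    · rw [z3 y h1]
  have zr : ∀ y r, r ≠ p → (Mem r (sn (z y)) ↔ Mem r (sn (ap ρ y))) := by
    intro y r hr
    by_cases h1 : InCell q s (ap ρ) v u p y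
    · by_cases h2 : P y
      · rw [z1 y h1 h2, sn_pr, mem_ins]
        exact ⟨fun h => h.resolve_left hr, Or.inr⟩
      · rw [z2 y h1 h2, sn_pr, mem_del]
        exact ⟨fun h => h.1, fun h => ⟨h, hr⟩⟩
    · rw [z3 y h1]
  have zp : ∀ y, InCell q s (ap ρ) v u p y → (Mem p (sn (z y)) ↔ P y) := by
    intro y h1
    by_cases h2 : P y
    · rw [z1 y h1 h2, sn_pr, mem_ins]
      exact ⟨fun _ => h2, fun _ => Or.inl rfl⟩
    · rw [z2 y h1 h2, sn_pr, mem_del]
      exact ⟨fun h => absurd rfl h.2, fun h => absurd h h2⟩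
  have za : ∀ y, Agr p (sn (z y)) (sn (ap ρ y)) := fun y r hr => zr y r hr.ne'
  have htab : ∀ y, fs q ≤ y → y < s → ap (tab s z) y = z y := fun y _ hy => ap_tab hz hy
  -- (1) the new assignment is correct
  have hcl : ClP J c q b s t z := by
    refine ⟨clW_congr J hS.cl.1 fun y _ _ => zf y, ?_, ?_⟩
    · intro y hy hy'
      rw [lt_pow2_iff]
      intro x hx
      by_cases hxp : x = p
      · rw [hxp]
        exact hL.2.2.1
      · exact (lt_pow2_iff.1 (hS.cl.2.1 y hy hy')) x ((zr y x hxp).1 hx)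
    · intro v' w p' hT i G hne hG hH
      refine hS.cl.2.2 v' w p' hT i G hne ?_ hH
      intro x hx
      obtain ⟨hxc, hxi⟩ := hG x hx
      by_cases hxL : InCell q s (ap ρ) v u p x
      · have hv : v' = v := by
          rw [← hxc.2.2.1, zf x, hxL.2.2.1]
        rcases lt_or_ge p p' with hpp | hpp
        · refine ⟨⟨hxc.1, hxc.2.1, ?_, ?_⟩, ?_⟩
          · rw [← zf x]
            exact hxc.2.2.1
          · intro r hr
            rw [← zr x r (hpp.trans hr).ne']
            exact hxc.2.2.2 r hr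
          · rw [← zr x p' hpp.ne']
            exact hxi
        · exfalso
          have ha : Agr p w u :=
            agr_trans (agr_symm (agr_mono hxc.2.2.2 hpp)) (agr_trans (za x) hxL.2.2.2)
          have hT' : InT t v w p := by
            rw [← hv]
            rcases lt_or_eq_of_le hpp with h1 | h1
            · exact hS.tree.2.2 v' w p' p hT h1 hL.2.2.1
            · rw [← h1]
              exact hT
          exact hL.2.2.2.1 (hS.tree.2.1 v w u p hT' hL.2.1 ha)
      · have he := z3 x hxL
        refine ⟨⟨hxc.1, hxc.2.1, ?_, ?_⟩, ?_⟩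
        · rw [← he]
          exact hxc.2.2.1
        · rw [← he]
          exact hxc.2.2.2
        · rw [← he]
          exact hxi
  -- (2) the leaf is killed
  have hk : Kill J c q s z v u p := by
    intro i G hne hG hH
    by_contra hcon
    push Not at hcon
    refine hno ⟨i, G, hne, ?_, hH, hcon⟩
    intro x hx
    obtain ⟨hxc, hxi⟩ := hG x hx
    have hxL : InCell q s (ap ρ) v u p x := by
      refine ⟨hxc.1, hxc.2.1, ?_, ?_⟩
      · rw [← zf x]
        exact hxc.2.2.1
      · exact agr_trans (agr_symm (za x)) hxc.2.2.2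
    exact ⟨hxL, (zp x hxL).symm.trans hxi⟩
  exact hS.noLeaf v u p hL (tab s z) (clP_congr J hcl htab) (kill_congr J hk htab)

end Pool.Agent.Work.MP_dfab40_lc.R.NL
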